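import Pool.Agent.DB.Top.Sep
import Pool.Agent.DB.Top.Conn

/-!
# DB-I-NerveB: a connected graph whose realisation embeds in the realisation of a tree is a tree

PLAN.  Acyclic: `SimpleGraph.isAcyclic_iff_forall_adj_isBridge`.  Suppose `A.Adj x y` and `x`, `y` are
joined in `A` minus the edge `xy`.  `C₁` = segment `[x, y]` (`edge_connected`), `C₂` = a connected set
containing `ev x`, `ev y`, consisting of points of `real A` on vertices or edges different from
`xy` (induction on the walk: union of segments sharing a vertex).  `C₁ ∩ C₂ ⊆ {ev x, ev y}` (a point with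
two non-zero coordinates determines its edge).  `ψ (ev x) ≠ ψ (ev y)`; `sg_sep`: an edge `cd` of `G` with
`sg (ψ (ev x)) < sg (ψ (ev y))` (or the other way round); choose `θ` strictly in between; `sg_ivt` for the
connected sets `ψ '' C₁`, `ψ '' C₂`: both contain `z = (1 - θ) ev c + θ ev d`; injectivity: `z = ψ q`,
`q ∈ C₁ ∩ C₂`, so `z = ψ (ev x)` or `ψ (ev y)`, but `sg z = θ` (`sg_edge`).
-/

namespace Pool.Agent.DB

open Set

variable {V W : Type} [Fintype V] [DecidableEq V] [Fintype W] [DecidableEq W]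

/-- the segment of the pair `uv` -/
private def sgm (u v : W) : Set (W → ℝ) :=
  (fun t : ℝ => (1 - t) • ev u + t • (ev v : W → ℝ)) '' Icc 0 1

omit [Fintype W] in
private theorem sgm_sub {A : SimpleGraph W} {u v : W} (h : A.Adj u v) : sgm u v ⊆ real A := by
  rintro _ ⟨t, ht, rfl⟩
  exact edge_mem h ht.1 ht.2

omit [Fintype W] in
private theorem sgm_left (u v : W) : ev u ∈ sgm u v := ⟨0, by simp, by simp⟩

omit [Fintype W] in
private theorem sgm_right (u v : W) : ev v ∈ sgm u v := ⟨1, by simp, by simp⟩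

omit [Fintype W] in
private theorem seg_apply (a b v : W) (t : ℝ) : ((1 - t) • ev a + t • ev b : W → ℝ) v =
    (1 - t) * (if v = a then 1 else 0) + t * (if v = b then 1 else 0) := by
  rw [Pi.add_apply, Pi.smul_apply, Pi.smul_apply, ev_apply, ev_apply, smul_eq_mul, smul_eq_mul]

omit [Fintype W] in
/-- a connected set joining the ends of a walk which avoids the edge `xy` -/
private theorem join {A : SimpleGraph W} {x y : W} (hxy : x ≠ y) {u v : W}
    (h : (A.deleteEdges {s(x, y)}).Reachable u v) :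
    ∃ C : Set (W → ℝ), IsPreconnected C ∧ ev u ∈ C ∧ ev v ∈ C ∧
      ∀ p ∈ C, p ∈ real A ∧ (p x = 0 ∨ p y = 0) := by
  obtain ⟨P⟩ := h
  induction P with
  | @nil u =>
    refine ⟨{ev u}, isPreconnected_singleton, rfl, rfl, ?_⟩
    rintro p rfl
    refine ⟨ev_mem u, ?_⟩
    by_cases h1 : x = u
    · right
      rw [ev_apply, if_neg]
      rintro rfl
      exact hxy h1
    · left
      rw [ev_apply, if_neg h1]
  | @cons u v w hadj P ih =>
    obtain ⟨C, hC, hv, hw, hp⟩ := ih
    rw [SimpleGraph.deleteEdges_adj] at hadj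
    obtain ⟨hadj, hne⟩ := hadj
    refine ⟨sgm u v ∪ C, ?_, Or.inl (sgm_left u v), Or.inr hw, ?_⟩
    · exact (edge_connected u v).isPreconnected.union (ev v) (sgm_right u v) hv hC
    · rintro p (hpu | hpc)
      · refine ⟨sgm_sub hadj hpu, ?_⟩
        obtain ⟨t, ht, rfl⟩ := hpu
        by_contra hcon
        rw [not_or] at hcon
        obtain ⟨h1, h2⟩ := hcon
        have key : ∀ z, ((1 - t) • ev u + t • ev v : W → ℝ) z ≠ 0 → z = u ∨ z = v := by
          intro z hz
          by_contra hz2
          rw [not_or] at hz2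
          apply hz
          rw [seg_apply, if_neg hz2.1, if_neg hz2.2]
          ring
        apply hne
        rw [mem_singleton_iff]
        rcases key x h1 with h3 | h3 <;> rcases key y h2 with h4 | h4
        · exact absurd (h3.trans h4.symm) hxy
        · rw [h3, h4]
        · rw [h3, h4, Sym2.eq_swap]
        · exact absurd (h3.trans h4.symm) hxy
      · exact hp p hpc

theorem embed_tree {G : SimpleGraph V} (hG : G.IsTree) {A : SimpleGraph W} (hA : A.Connected)
    (ψ : (W → ℝ) → V → ℝ) (hc : ContinuousOn ψ (real A)) (hi : InjOn ψ (real A))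
    (hm : MapsTo ψ (real A) (real G)) : A.IsTree := by
  refine ⟨hA, SimpleGraph.isAcyclic_iff_forall_adj_isBridge.2 ?_⟩
  intro x y hxy
  rw [SimpleGraph.isBridge_iff]
  intro hr
  have hne : x ≠ y := hxy.ne
  obtain ⟨C, hC, hx, hy, hp⟩ := join hne hr
  have hCr : C ⊆ real A := fun p h => (hp p h).1
  -- common points
  have hcom : ∀ q ∈ sgm x y, q ∈ C → q = ev x ∨ q = ev y := by
    rintro q ⟨t, ht, rfl⟩ hq
    rcases (hp _ hq).2 with h | h
    · right
      beta_reduce at h ⊢
      rw [seg_apply, if_pos rfl, if_neg hne] at h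
      have : t = 1 := by linarith
      simp [this]
    · left
      beta_reduce at h ⊢
      rw [seg_apply, if_neg hne.symm, if_pos rfl] at h
      have : t = 0 := by linarith
      simp [this]
  have hS : IsPreconnected (ψ '' sgm x y) :=
    (edge_connected x y).isPreconnected.image _ (hc.mono (sgm_sub hxy))
  have hS' : ψ '' sgm x y ⊆ real G := by
    rintro _ ⟨q, hq, rfl⟩
    exact hm (sgm_sub hxy hq)
  have hT : IsPreconnected (ψ '' C) := hC.image _ (hc.mono hCr)
  have hT' : ψ '' C ⊆ real G := by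
    rintro _ ⟨q, hq, rfl⟩
    exact hm (hCr hq)
  have hψ : ψ (ev x) ≠ ψ (ev y) := fun h => hne (ev_inj (hi (ev_mem x) (ev_mem y) h))
  obtain ⟨a, b, hab, hlt⟩ := sg_sep hG (hm (ev_mem x)) (hm (ev_mem y)) hψ
  obtain ⟨θ, h1, h2⟩ := exists_between hlt
  have h0 : 0 < θ := lt_of_le_of_lt (sg_nonneg a b (hm (ev_mem x))) h1
  have h3 : θ < 1 := lt_of_lt_of_le h2 (sg_le_one a b (hm (ev_mem y)))
  obtain ⟨q, hq, hqe⟩ := sg_ivt hG hab hS' hS ⟨_, sgm_left x y, rfl⟩ ⟨_, sgm_right x y, rfl⟩
    h0 h3 h1.le h2.le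
  obtain ⟨q', hq', hqe'⟩ := sg_ivt hG hab hT' hT ⟨_, hx, rfl⟩ ⟨_, hy, rfl⟩ h0 h3 h1.le h2.le
  have hqq : q = q' := hi (sgm_sub hxy hq) (hCr hq') (hqe.trans hqe'.symm)
  subst hqq
  have hsg : sg G a b (ψ q) = θ := by
    rw [hqe, sg_edge hG hab]
  rcases hcom q hq hq' with h | h
  · rw [h] at hsg
    linarith
  · rw [h] at hsg
    linarith

end Pool.Agent.DB
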