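import Pool.Agent.DB.Top.Sep
import Pool.Agent.DB.Top.Conn

/-!
# DB-I-NerveC: degrees under an embedding of a graph in a tree

PLAN.  `x` a vertex of `A` with `D = deg A x ≥ 3`, `p = ψ (ev x) ∈ real G`.
For every neighbour `y` of `x` let `H_y = ψ '' {(1 - t) ev x + t ev y | 0 < t ≤ 1}`: preconnected,
`p ∉ H_y`, the closed arcs `H_y ∪ {p}` are connected and pairwise meet only in `p` (`InjOn`).
Key fact (*): if `G.Adj w u`, `sg G w u p = 0` (or in general `sg G w u p ≤ c`) and both `H_y`, `H_z`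
contain points with `sg G w u > c`, `0 ≤ c < 1`, then `y = z`: choose `θ` above `c`, below both values
and below `1`: `sg_ivt` for the two arcs gives the same point `(1 - θ) ev w + θ ev u`, different from `p`.
(1) `p` is not an interior point of an edge `ab` (`real_cases`): otherwise `0 < c = sg G a b p < 1`.
No point `q` of `H_y` has `sg G a b q = c` (`sg_mid` would give `q = p`), so it has `sg > c` or
`sg < c`, i.e. `sg G b a q > 1 - c` (`sg_swap`).  Pick one point `q_y` in every `H_y`; by (*) at most one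
`y` is on each side, so `D ≤ 2`.
(2) `p = ev w`: `q_y ≠ p`: `exists_dir` gives a neighbour `u` of `w` with `0 < sg G w u q_y`, and `y ↦ u` is
injective by (*) with `c = 0` (`sg G w u (ev w) = 0`: `sg_ev_not`, `side_left`).  So `deg A x ≤ deg G w`
(`Set.ncard_le_ncard_of_injOn`).
-/
namespace Pool.Agent.DB

open Set

variable {V W : Type} [Fintype V] [DecidableEq V] [Fintype W] [DecidableEq W]

omit [Fintype W] in
private theorem seg_uniq {x y z : W} (hy : y ≠ x) {s t : ℝ} (ht : 0 < t)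
    (h : (1 - t) • ev x + t • (ev y : W → ℝ) = (1 - s) • ev x + s • ev z) : y = z := by
  have h1 := congrFun h y
  simp only [Pi.add_apply, Pi.smul_apply, ev_apply, smul_eq_mul] at h1
  rw [if_neg hy] at h1
  by_contra hyz
  rw [if_neg hyz] at h1
  simp only [mul_zero, zero_add, if_true, mul_one] at h1
  linarith

private theorem embed_key {G : SimpleGraph V} (hG : G.IsTree) {A : SimpleGraph W}
    {ψ : (W → ℝ) → V → ℝ} (hc : ContinuousOn ψ (real A)) (hi : InjOn ψ (real A))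
    (hm : MapsTo ψ (real A) (real G)) {x y z : W} (hy : A.Adj x y) (hz : A.Adj x z)
    {w u : V} (hwu : G.Adj w u) {c : ℝ} (hc0 : 0 ≤ c) (hc1 : c < 1)
    (hp : sg G w u (ψ (ev x)) ≤ c) (hqy : c < sg G w u (ψ (ev y)))
    (hqz : c < sg G w u (ψ (ev z))) : y = z := by
  obtain ⟨θ, h1, h2, h3, h4⟩ : ∃ θ : ℝ, c < θ ∧ θ < 1 ∧ θ ≤ sg G w u (ψ (ev y)) ∧
      θ ≤ sg G w u (ψ (ev z)) := by
    refine ⟨(c + min (min (sg G w u (ψ (ev y))) (sg G w u (ψ (ev z)))) 1) / 2, ?_, ?_, ?_, ?_⟩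
    · have : c < min (min (sg G w u (ψ (ev y))) (sg G w u (ψ (ev z)))) 1 :=
        lt_min (lt_min hqy hqz) hc1
      linarith
    · have := min_le_right (min (sg G w u (ψ (ev y))) (sg G w u (ψ (ev z)))) 1
      linarith
    · have ha := min_le_left (min (sg G w u (ψ (ev y))) (sg G w u (ψ (ev z)))) 1
      have hb := min_le_left (sg G w u (ψ (ev y))) (sg G w u (ψ (ev z)))
      linarith
    · have ha := min_le_left (min (sg G w u (ψ (ev y))) (sg G w u (ψ (ev z)))) 1
      have hb := min_le_right (sg G w u (ψ (ev y))) (sg G w u (ψ (ev z)))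
      linarith
  have arc : ∀ v : W, A.Adj x v → θ ≤ sg G w u (ψ (ev v)) →
      ∃ t : ℝ, 0 < t ∧ t ≤ 1 ∧
        ψ ((1 - t) • ev x + t • ev v) = (1 - θ) • ev w + θ • ev u := by
    intro v hv hθ
    set S : Set (W → ℝ) := (fun t : ℝ => (1 - t) • ev x + t • (ev v : W → ℝ)) '' Icc 0 1 with hS
    have hSA : S ⊆ real A := by
      rintro _ ⟨t, ht, rfl⟩
      exact edge_mem hv ht.1 ht.2
    have hpre : IsPreconnected (ψ '' S) :=
      (edge_connected x v).isPreconnected.image ψ (hc.mono hSA)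
    have hsub : ψ '' S ⊆ real G := by
      rintro _ ⟨q, hq, rfl⟩
      exact hm (hSA hq)
    have hx : ψ (ev x) ∈ ψ '' S := ⟨ev x, ⟨0, ⟨le_refl _, zero_le_one⟩, by simp⟩, rfl⟩
    have hvm : ψ (ev v) ∈ ψ '' S := ⟨ev v, ⟨1, ⟨zero_le_one, le_refl _⟩, by simp⟩, rfl⟩
    have h5 := sg_ivt hG hwu hsub hpre hx hvm (lt_of_le_of_lt hc0 h1) h2 (hp.trans h1.le) hθ
    obtain ⟨_, ⟨t, ht, rfl⟩, h6⟩ := h5
    refine ⟨t, lt_of_le_of_ne ht.1 ?_, ht.2, h6⟩
    rintro rfl
    have h7 : ((fun t : ℝ => (1 - t) • ev x + t • (ev v : W → ℝ)) 0) = ev x := by simp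
    rw [h7] at h6
    rw [h6, sg_edge hG hwu] at hp
    linarith
  obtain ⟨t, ht0, ht1, ht⟩ := arc y hy h3
  obtain ⟨s, hs0, hs1, hs⟩ := arc z hz h4
  exact seg_uniq hy.ne' ht0 (hi (edge_mem hy ht0.le ht1) (edge_mem hz hs0.le hs1)
    (ht.trans hs.symm))

theorem embed_deg {G : SimpleGraph V} (hG : G.IsTree) {A : SimpleGraph W}
    (ψ : (W → ℝ) → V → ℝ) (hc : ContinuousOn ψ (real A)) (hi : InjOn ψ (real A))
    (hm : MapsTo ψ (real A) (real G)) {x : W} (hx : 3 ≤ deg A x) :
    ∃ w : V, ψ (ev x) = ev w ∧ deg A x ≤ deg G w := by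
  classical
  have hne : ∀ y, A.Adj x y → ψ (ev y) ≠ ψ (ev x) := by
    intro y hy h
    exact hy.ne' (ev_inj (hi (ev_mem y) (ev_mem x) h))
  rcases real_cases (hm (ev_mem (G := A) x)) with ⟨w, hw⟩ | ⟨a, b, hab, t, ht0, ht1, hp⟩
  · refine ⟨w, hw, ?_⟩
    have hdir : ∀ y : W, ∃ u : V, A.Adj x y → G.Adj w u ∧ 0 < sg G w u (ψ (ev y)) := by
      intro y
      by_cases hy : A.Adj x y
      · have h1 : ψ (ev y) ≠ ev w := by
          rw [← hw]
          exact hne y hy
        obtain ⟨u, hu, hs⟩ := exists_dir hG (hm (ev_mem y)) h1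
        exact ⟨u, fun _ => ⟨hu, hs⟩⟩
      · exact ⟨w, fun h => absurd h hy⟩
    choose g hg using hdir
    refine Set.ncard_le_ncard_of_injOn g ?_ ?_ (Set.toFinite _)
    · intro y hy
      exact (hg y hy).1
    · intro y hy z hz hyz
      have hy1 := hg y hy
      have hz1 := hg z hz
      rw [← hyz] at hz1
      refine embed_key hG hc hi hm hy hz hy1.1 le_rfl zero_lt_one ?_ hy1.2 hz1.2
      rw [hw, sg_ev_not (side_left hG hy1.1)]
  · exfalso
    have hpc : sg G a b (ψ (ev x)) = t := by rw [hp, sg_edge hG hab]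
    have hsplit : A.neighborSet x ⊆ {y | A.Adj x y ∧ t < sg G a b (ψ (ev y))} ∪
        {y | A.Adj x y ∧ sg G a b (ψ (ev y)) < t} := by
      intro y hy
      rcases lt_trichotomy t (sg G a b (ψ (ev y))) with h | h | h
      · exact Or.inl ⟨hy, h⟩
      · exfalso
        have h1 := sg_mid hG hab (hm (ev_mem (G := A) y)) (by rw [← h]; exact ht0)
          (by rw [← h]; exact ht1)
        rw [← h, ← hp] at h1
        exact hne y hy h1
      · exact Or.inr ⟨hy, h⟩
    have h1 : {y | A.Adj x y ∧ t < sg G a b (ψ (ev y))}.ncard ≤ 1 := by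
      rw [Set.ncard_le_one (Set.toFinite _)]
      rintro y ⟨hy, hy1⟩ z ⟨hz, hz1⟩
      exact embed_key hG hc hi hm hy hz hab ht0.le ht1 hpc.le hy1 hz1
    have h2 : {y | A.Adj x y ∧ sg G a b (ψ (ev y)) < t}.ncard ≤ 1 := by
      rw [Set.ncard_le_one (Set.toFinite _)]
      rintro y ⟨hy, hy1⟩ z ⟨hz, hz1⟩
      refine embed_key hG hc hi hm hy hz hab.symm (c := 1 - t) (by linarith) (by linarith)
        ?_ ?_ ?_
      · rw [sg_swap hG hab (hm (ev_mem x)), hpc]
      · rw [sg_swap hG hab (hm (ev_mem y))]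
        linarith
      · rw [sg_swap hG hab (hm (ev_mem z))]
        linarith
    have h3 : deg A x ≤ 1 + 1 := by
      unfold deg
      refine (Set.ncard_le_ncard hsplit (Set.toFinite _)).trans ?_
      exact (Set.ncard_union_le _ _).trans (add_le_add h1 h2)
    omega

end Pool.Agent.DB
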