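import Pool.Agent.DB.I.NerveA
import Pool.Agent.DB.I.NerveB
import Pool.Agent.DB.I.NerveC

/-!
# DB-I-Nerve: the nerve graph of a tree-like cover (assembly, helper36)
-/

namespace Pool.Agent.DB

open Set

/-- a graph whose realisation embeds in the realisation of a tree: branch vertices and excess -/
theorem embed_count {V W : Type} [Fintype V] [DecidableEq V] [Fintype W] [DecidableEq W]
    {G : SimpleGraph V} (hG : G.IsTree) {A : SimpleGraph W}
    (ψ : (W → ℝ) → V → ℝ) (hc : ContinuousOn ψ (real A)) (hi : InjOn ψ (real A))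
    (hm : MapsTo ψ (real A) (real G)) : bnum A ≤ bnum G ∧ beta A ≤ beta G := by
  classical
  have hex : ∀ x : W, 3 ≤ deg A x → ∃ w : V, ψ (ev x) = ev w ∧ deg A x ≤ deg G w :=
    fun x hx => embed_deg hG ψ hc hi hm hx
  have hne : Nonempty V := hG.connected.nonempty
  choose! w hw hd using hex
  have hinj : ∀ x y : W, 3 ≤ deg A x → 3 ≤ deg A y → w x = w y → x = y := by
    intro x y hx hy hxy
    have h1 : ψ (ev x) = ψ (ev y) := by rw [hw x hx, hw y hy, hxy]
    exact ev_inj (hi (ev_mem x) (ev_mem y) h1)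
  constructor
  · refine Set.ncard_le_ncard_of_injOn w ?_ ?_ (Set.toFinite _)
    · intro x hx
      exact le_trans hx (hd x hx)
    · intro x hx y hy hxy
      exact hinj x y hx hy hxy
  · have h1 : beta A = ∑ x ∈ Finset.univ.filter (fun x : W => 3 ≤ deg A x), (deg A x - 2) := by
      unfold beta
      rw [Finset.sum_filter]
      refine Finset.sum_congr rfl fun x _ => ?_
      split_ifs with h
      · rfl
      · omega
    rw [h1]
    calc ∑ x ∈ Finset.univ.filter (fun x : W => 3 ≤ deg A x), (deg A x - 2)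
        ≤ ∑ x ∈ Finset.univ.filter (fun x : W => 3 ≤ deg A x), (deg G (w x) - 2) := by
          refine Finset.sum_le_sum fun x hx => ?_
          have := hd x (Finset.mem_filter.1 hx).2
          omega
      _ = ∑ v ∈ (Finset.univ.filter (fun x : W => 3 ≤ deg A x)).image w, (deg G v - 2) := by
          rw [Finset.sum_image]
          intro x hx y hy hxy
          exact hinj x y (Finset.mem_filter.1 hx).2 (Finset.mem_filter.1 hy).2 hxy
      _ ≤ ∑ v : V, (deg G v - 2) :=
          Finset.sum_le_sum_of_subset (Finset.subset_univ _)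

/-- the nerve graph of a cover of a connected space whose nerve embeds in a tree -/
theorem nerve_tree (X : Type) [TopologicalSpace X] [ConnectedSpace X] (n : ℕ)
    (U : Fin n → Set X) (hU : ∀ i, IsOpen (U i)) (hUc : ⋃ i, U i = univ)
    {V : Type} [Fintype V] [DecidableEq V] (G : SimpleGraph V) (hG : G.IsTree)
    (K : Set (real G)) (hK : Nonempty (nerveReal U ≃ₜ K))
    [Fintype {i : Fin n // (U i).Nonempty}]
    (A : SimpleGraph {i : Fin n // (U i).Nonempty})
    (hA : ∀ i j, A.Adj i j ↔ i ≠ j ∧ (U i.1 ∩ U j.1).Nonempty) :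
    A.IsTree ∧ bnum A ≤ bnum G ∧ beta A ≤ beta G := by
  obtain ⟨ψ, hc, hi, hm⟩ := nerve_psi X n U G K hK A hA
  have hconn := nerve_connected X n U hU hUc A hA
  exact ⟨embed_tree hG hconn ψ hc hi hm, embed_count hG ψ hc hi hm⟩

end Pool.Agent.DB
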