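import Pool.Agent.DB.Top.Sep
import Pool.Agent.DB.Top.Conn

/-!
# DB-I-OrdA0: a subcontinuum of a tree without vertices is an interval in an open edge

PLAN.  Take `z ∈ F`; `real_cases` (not a vertex): `z = (1-u) ev a + u ev b`, `0 < u < 1`, `sg G a b z = u`
(`sg_edge`).  For `p ∈ F`: `0 < sg G a b p` by `sg_clopen` (`w = a`), and `0 < sg G b a p` by `sg_clopen`
(`w = b`), so `sg G a b p < 1` (`sg_swap`).  `F` compact: `s` = minimum, `t` = maximum of `sg G a b` on `F`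
(`IsCompact.exists_isMinOn`).  Conversely if `p ∈ real G`, `s ≤ sg p ≤ t`, then `p` is the edge point
with parameter `sg p` (`sg_mid`), which is in `F` by `sg_ivt`.
-/

namespace Pool.Agent.DB

open Set

variable {V : Type} [Fintype V] [DecidableEq V] {G : SimpleGraph V}

theorem interval_fibre (hG : G.IsTree) {F : Set (V → ℝ)} (hF : F ⊆ real G) (hc : IsConnected F)
    (hk : IsCompact F) (hv : ∀ v, ev v ∉ F) :
    ∃ a b, G.Adj a b ∧ ∃ s t : ℝ, 0 < s ∧ s ≤ t ∧ t < 1 ∧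
      ∀ p, p ∈ F ↔ p ∈ real G ∧ s ≤ sg G a b p ∧ sg G a b p ≤ t := by
  obtain ⟨z, hz⟩ := hc.nonempty
  rcases real_cases (hF hz) with ⟨v, hv'⟩ | ⟨a, b, hab, u, hu0, hu1, hzu⟩
  · exact absurd (hv' ▸ hz) (hv v)
  have hsz : sg G a b z = u := by rw [hzu, sg_edge hG hab]
  have hpos : ∀ p ∈ F, 0 < sg G a b p := fun p hp =>
    sg_clopen hG hab hF hc.isPreconnected (hv a) hz hp (by rw [hsz]; exact hu0)
  have hlt : ∀ p ∈ F, sg G a b p < 1 := by
    intro p hp
    have h1 : 0 < sg G b a p := sg_clopen hG hab.symm hF hc.isPreconnected (hv b) hz hp (by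
      rw [sg_swap hG hab (hF hz), hsz]; linarith)
    rw [sg_swap hG hab (hF hp)] at h1
    linarith
  obtain ⟨m, hm, hmin⟩ := hk.exists_isMinOn ⟨z, hz⟩ (sg_continuous G a b).continuousOn
  obtain ⟨M, hM, hmax⟩ := hk.exists_isMaxOn ⟨z, hz⟩ (sg_continuous G a b).continuousOn
  refine ⟨a, b, hab, sg G a b m, sg G a b M, hpos m hm, hmin hM, hlt M hM, ?_⟩
  intro p
  constructor
  · intro hp
    exact ⟨hF hp, hmin hp, hmax hp⟩
  · rintro ⟨hp, h1, h2⟩
    have h3 : 0 < sg G a b p := (hpos m hm).trans_le h1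
    have h4 : sg G a b p < 1 := h2.trans_lt (hlt M hM)
    rw [sg_mid hG hab hp h3 h4]
    exact sg_ivt hG hab hF hc.isPreconnected hm hM h3 h4 h1 h2

end Pool.Agent.DB
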