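import Pool.Agent.DB.Defs

/-!
# DB-I-Cnt: counting the leaves of a tree

PLAN.  `deg G v = G.degree v` (classically: `Set.ncard_eq_toFinset_card'`, `SimpleGraph.card_neighborSet_eq_degree`).
`SimpleGraph.sum_degrees_eq_twice_card_edges` and `SimpleGraph.isTree_iff_connected_and_card` (or
`SimpleGraph.IsTree.card_edgeFinset`): `∑ v, deg v = 2 (card V - 1)`.  Every degree is `≥ 1`
(connected, `Nontrivial V`; e.g. `SimpleGraph.Connected.degree_pos...` /
`SimpleGraph.Preconnected.exists_adj...`).  With `d = (d - 2) + 2 - (if d = 1 then 1 else 0)` for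
`d ≥ 1`: `2 card V - 2 = beta + 2 card V - #{deg = 1}`.
`card_reduced`: `V` is the disjoint union of `{deg = 1}` and `{3 ≤ deg}`.
-/

namespace Pool.Agent.DB

open Set

variable {V : Type} [Fintype V]

private theorem deg_eq (G : SimpleGraph V) [DecidableRel G.Adj] (v : V) :
    deg G v = G.degree v := by
  classical
  unfold deg
  rw [Set.ncard_eq_toFinset_card', Set.toFinset_card, SimpleGraph.card_neighborSet_eq_degree]

private theorem ncard_sum (p : V → Prop) [DecidablePred p] :
    {v : V | p v}.ncard = ∑ v : V, if p v then 1 else 0 := by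
  rw [Set.ncard_eq_toFinset_card', Finset.sum_boole, Set.toFinset_setOf]
  rfl

theorem deg_pos {G : SimpleGraph V} (hG : G.IsTree) (hn : Nontrivial V) (v : V) :
    0 < deg G v := by
  classical
  rw [deg_eq]
  exact hG.connected.preconnected.degree_pos_of_nontrivial v

theorem sum_deg {G : SimpleGraph V} (hG : G.IsTree) :
    ∑ v : V, deg G v + 2 = 2 * Fintype.card V := by
  classical
  have h1 : ∑ v : V, deg G v = ∑ v : V, G.degree v := Finset.sum_congr rfl fun v _ => deg_eq G v
  rw [h1, G.sum_degrees_eq_twice_card_edges, ← hG.card_edgeFinset]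
  ring

theorem leaf_count {G : SimpleGraph V} (hG : G.IsTree) (hn : Nontrivial V) :
    {v : V | deg G v = 1}.ncard = beta G + 2 := by
  classical
  rw [ncard_sum (fun v => deg G v = 1)]
  have h1 : ∑ v : V, deg G v + ∑ v : V, (if deg G v = 1 then 1 else 0) =
      beta G + 2 * Fintype.card V := by
    unfold beta
    rw [← Finset.sum_add_distrib, Fintype.card, Finset.card_eq_sum_ones, Finset.mul_sum,
      ← Finset.sum_add_distrib]
    refine Finset.sum_congr rfl fun v _ => ?_
    have h2 := deg_pos hG hn v
    split_ifs with h3 <;> omega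
  have h2 := sum_deg hG
  omega

theorem card_reduced {G : SimpleGraph V} (hG : G.IsTree) (hn : Nontrivial V)
    (h2 : ∀ v, deg G v ≠ 2) : Fintype.card V = bnum G + beta G + 2 := by
  classical
  have h1 := leaf_count hG hn
  rw [ncard_sum (fun v => deg G v = 1)] at h1
  unfold bnum
  rw [ncard_sum (fun v => 3 ≤ deg G v), add_assoc, ← h1, ← Finset.sum_add_distrib, Fintype.card,
    Finset.card_eq_sum_ones]
  refine Finset.sum_congr rfl fun v _ => ?_
  have h3 := deg_pos hG hn v
  have h4 := h2 v
  split_ifs with h5 h6 h6 <;> omega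

end Pool.Agent.DB
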