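import Mathlib

/-!
# DB-I-MPre: preimages of closed connected sets under monotone maps

PLAN.  Suppose `f ⁻¹' C` is not connected: it is the union of two disjoint non-empty closed sets `P`, `Q`
(relatively closed in the closed set `f ⁻¹' C`, hence closed, hence compact).  Every fibre over a point of `C`
is connected, so contained in `P` or in `Q`; so `f '' P`, `f '' Q` are disjoint, compact, closed, non-empty and
cover `C`: contradiction.  (`isPreconnected_closed_iff`, or apply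
`preimage_connectedComponent_connected` to the restriction `f ⁻¹' C → C`.)
-/

namespace Pool.Agent.DB

open Set

theorem mono_preimage {X Y : Type*} [TopologicalSpace X] [CompactSpace X] [TopologicalSpace Y]
    [T2Space Y] {f : X → Y} (hf : Continuous f) (hc : ∀ y, IsConnected (f ⁻¹' {y})) {C : Set Y}
    (hC : IsClosed C) (hCc : IsConnected C) : IsConnected (f ⁻¹' C) := by
  refine ⟨?_, ?_⟩
  · obtain ⟨y, hy⟩ := hCc.nonempty
    obtain ⟨x, hx⟩ := (hc y).nonempty
    have hx' : f x = y := hx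
    exact ⟨x, show f x ∈ C by rw [hx']; exact hy⟩
  · rw [isPreconnected_closed_iff]
    rintro t t' ht ht' hsub ⟨x, hxC, hxt⟩ ⟨x', hxC', hxt'⟩
    have hCl : IsClosed (f ⁻¹' C) := hC.preimage hf
    have hP : IsClosed (f '' (f ⁻¹' C ∩ t)) := ((hCl.inter ht).isCompact.image hf).isClosed
    have hQ : IsClosed (f '' (f ⁻¹' C ∩ t')) := ((hCl.inter ht').isCompact.image hf).isClosed
    have hcov : C ⊆ f '' (f ⁻¹' C ∩ t) ∪ f '' (f ⁻¹' C ∩ t') := by
      intro y hy
      obtain ⟨z, hz⟩ := (hc y).nonempty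
      have hz' : f z = y := hz
      have hzC : z ∈ f ⁻¹' C := show f z ∈ C by rw [hz']; exact hy
      rcases hsub hzC with h | h
      · exact Or.inl ⟨z, ⟨hzC, h⟩, hz'⟩
      · exact Or.inr ⟨z, ⟨hzC, h⟩, hz'⟩
    obtain ⟨y, hyC, ⟨u, ⟨hu, hut⟩, huy⟩, ⟨u', ⟨hu', hut'⟩, huy'⟩⟩ :=
      isPreconnected_closed_iff.1 hCc.isPreconnected _ _ hP hQ hcov
        ⟨f x, hxC, x, ⟨hxC, hxt⟩, rfl⟩ ⟨f x', hxC', x', ⟨hxC', hxt'⟩, rfl⟩
    have hF : f ⁻¹' {y} ⊆ f ⁻¹' C := fun z hz => by
      have hz' : f z = y := hz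
      show f z ∈ C
      rw [hz']
      exact hyC
    obtain ⟨z, hz, hzt⟩ := isPreconnected_closed_iff.1 (hc y).isPreconnected t t' ht ht'
      (hF.trans hsub) ⟨u, huy, hut⟩ ⟨u', huy', hut'⟩
    exact ⟨z, hF hz, hzt⟩

end Pool.Agent.DB
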