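import Pool.Agent.DB.Top.SubC
import Pool.Agent.DB.Top.SubH
import Pool.Agent.DB.I.Cnt

/-!
# DB-I-ModelA: a tree without vertices of degree two has a model

PLAN.  `nb_exists`: an equivalence `e : Fin (deg G v) ≃ G.neighborSet v` (`Set.ncard`, `Nat.card`,
`Finite.equivFin`), `nb m = e ⟨m % d, _⟩`.
`model_of`: `L = ∑ v, (deg v ^ 2 + deg v + 1) * deg v` (`> 0`, at least every summand),
`V := SubV G L`, `G := SubG G L` (`sub_tree`), `B` = image of `{v | 3 ≤ deg G v}` under `sv G L`,
`d x := deg (SubG G L) x` (`sub_deg_sv`), `ray (sv v) m j := spt G L v (nb v m) j` (choose for every `x ∈ B`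
the old vertex: `sv_inj`; junk outside of `B`: e.g. `if h : ∃ v, x = sv G L v then ... else x`).
Fields: `ray_zero`: `spt_zero`; `ray_adj`: `sub_adj_succ`; `ray_per`: `nb v m = nb v m'`; `ray_inj`: `spt_ray`,
and `nb v m = nb v m' → m ≡ m'`; `nbr`: `sub_adj_sv`; `ray_int`: `sub_adj_inner`; `ray_end`: the end is
`sv (nb v m)` (`spt_top`): if `3 ≤ deg` it is in `B`, with `m'` such that `nb (nb v m) m' = v`, and
`spt G L (nb v m) v j = spt G L v (nb v m) (L - j)` (`spt_swap`); otherwise `deg = 1` (`deg_pos`, `h2`), the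
only neighbour (`sub_adj_sv`) is `spt (nb v m) v 1 = spt v (nb v m) (L - 1)`.
`cover`: `sub_cases`; an edge `ab` of `G` has an end of degree `≥ 3`: otherwise `a`, `b` both have degree
one, so `{a, b}` is a connected component, all of `V`, contradiction to `0 < bnum G`; a vertex is on some
edge (`deg_pos`; `V` is non-trivial because there is a branch vertex).
`ι = sv G L`; the realisation: `sub_homeo`.
-/
namespace Pool.Agent.DB

open Set

variable {V : Type} [Fintype V] [DecidableEq V]

omit [DecidableEq V] in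
theorem nb_exists (G : SimpleGraph V) {v : V} (hv : 0 < deg G v) :
    ∃ nb : ℕ → V, (∀ m, G.Adj v (nb m)) ∧ (∀ m m', nb m = nb m' ↔ m ≡ m' [MOD deg G v]) ∧
      ∀ u, G.Adj v u → ∃ m, m < deg G v ∧ u = nb m := by
  have hcard : Nat.card (G.neighborSet v) = deg G v := rfl
  have e : G.neighborSet v ≃ Fin (deg G v) := by
    rw [← hcard]
    exact Finite.equivFin _
  refine ⟨fun m => (e.symm ⟨m % deg G v, Nat.mod_lt _ hv⟩).1, fun m => ?_, fun m m' => ?_,
    fun u hu => ?_⟩
  · exact (e.symm ⟨m % deg G v, Nat.mod_lt _ hv⟩).2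
  · constructor
    · intro h
      have h1 := e.symm.injective (Subtype.ext h)
      exact congrArg Fin.val h1
    · intro h
      have h1 : m % deg G v = m' % deg G v := h
      simp only [h1]
  · refine ⟨(e ⟨u, hu⟩).1, (e ⟨u, hu⟩).2, ?_⟩
    have h1 : (⟨(e ⟨u, hu⟩).1 % deg G v, Nat.mod_lt _ hv⟩ : Fin (deg G v)) = e ⟨u, hu⟩ := by
      apply Fin.ext
      exact Nat.mod_eq_of_lt (e ⟨u, hu⟩).2
    simp only [h1, Equiv.symm_apply_apply]

omit [Fintype V] [DecidableEq V] in
private theorem walk_pair {G : SimpleGraph V} {a b : V} (ha : ∀ w, G.Adj a w → w = b)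
    (hb : ∀ w, G.Adj b w → w = a) {u w : V} (p : G.Walk u w) (hu : u = a ∨ u = b) :
    w = a ∨ w = b := by
  induction p with
  | nil => exact hu
  | @cons u v w h p ih =>
    apply ih
    rcases hu with rfl | rfl
    · exact Or.inr (ha _ h)
    · exact Or.inl (hb _ h)

omit [Fintype V] [DecidableEq V] in
private theorem deg_one_nbr {G : SimpleGraph V} {a b : V} (h : G.Adj a b) (hd : deg G a = 1)
    {w : V} (hw : G.Adj a w) : w = b := by
  obtain ⟨x, hx⟩ := Set.ncard_eq_one.1 hd
  have h1 : b ∈ G.neighborSet a := h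
  have h2 : w ∈ G.neighborSet a := hw
  rw [hx, Set.mem_singleton_iff] at h1 h2
  rw [h1, h2]

/-- the model over a tree without vertices of degree two -/
theorem model_of (G : SimpleGraph V) (hG : G.IsTree) (h2 : ∀ v, deg G v ≠ 2) (hb : 0 < bnum G) :
    ∃ (M : Model) (ι : V → M.V), Function.Injective ι ∧
      (∀ y, y ∈ M.B ↔ ∃ v, 3 ≤ deg G v ∧ ι v = y) ∧
      (∀ v, 3 ≤ deg G v → M.d (ι v) = deg G v) ∧ Nonempty (real M.G ≃ₜ real G) := by
  classical
  obtain ⟨v0, hv0⟩ : {v : V | 3 ≤ deg G v}.Nonempty :=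
    (Set.ncard_pos (Set.toFinite _)).1 hb
  have hv0' : 3 ≤ deg G v0 := hv0
  have hnt : Nontrivial V := by
    have h1 : (G.neighborSet v0).Nonempty := by
      rw [← Set.ncard_pos (Set.toFinite _)]
      exact lt_of_lt_of_le (by norm_num) hv0'
    obtain ⟨u, hu⟩ := h1
    exact ⟨⟨v0, u, (show G.Adj v0 u from hu).ne⟩⟩
  have hpos : ∀ v, 0 < deg G v := fun v => deg_pos hG hnt v
  set n : ℕ := ∑ v, (deg G v ^ 2 + deg G v + 1) * deg G v with hn
  have hle : ∀ v, (deg G v ^ 2 + deg G v + 1) * deg G v ≤ n := by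
    intro v
    exact Finset.single_le_sum (f := fun v => (deg G v ^ 2 + deg G v + 1) * deg G v)
      (fun _ _ => Nat.zero_le _) (Finset.mem_univ v)
  have hn0 : 0 < n := lt_of_lt_of_le (Nat.mul_pos (Nat.succ_pos _) (hpos v0)) (hle v0)
  have hnb := fun v => nb_exists G (hpos v)
  choose nb hnb1 hnb2 hnb3 using hnb
  -- an edge has an end of degree at least three
  have hend : ∀ a b, G.Adj a b → 3 ≤ deg G a ∨ 3 ≤ deg G b := by
    intro a b hab
    by_contra hcon
    rw [not_or] at hcon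
    have ha1 : deg G a = 1 := by have := hpos a; have := h2 a; omega
    have hb1 : deg G b = 1 := by have := hpos b; have := h2 b; omega
    obtain ⟨p⟩ := hG.connected.preconnected a v0
    rcases walk_pair (fun w hw => deg_one_nbr hab ha1 hw)
      (fun w hw => deg_one_nbr hab.symm hb1 hw) p (Or.inl rfl) with h | h
    · rw [h] at hv0'
      omega
    · rw [h] at hv0'
      omega
  -- the old vertex
  set pre : SubV G n → V := fun x => if h : ∃ v, sv G n v = x then h.choose else v0 with hpre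
  have hpre_sv : ∀ v, pre (sv G n v) = v := by
    intro v
    have h : ∃ w, sv G n w = sv G n v := ⟨v, rfl⟩
    simp only [hpre]
    rw [dif_pos h]
    exact sv_inj hn0 h.choose_spec
  set B : Finset (SubV G n) := (Finset.univ.filter (fun v => 3 ≤ deg G v)).image (sv G n) with hB
  have memB : ∀ x, x ∈ B ↔ ∃ v, 3 ≤ deg G v ∧ sv G n v = x := by
    intro x
    rw [hB, Finset.mem_image]
    simp only [Finset.mem_filter, Finset.mem_univ, true_and]
  refine ⟨{ V := SubV G n
            fV := inferInstance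
            dV := inferInstance
            G := SubG G n
            tree := sub_tree hG hn0
            L := n
            B := B
            d := fun x => deg (SubG G n) x
            ray := fun x m j => spt G n (pre x) (nb (pre x) m) j
            ne := ⟨sv G n v0, (memB _).2 ⟨v0, hv0', rfl⟩⟩
            three_le := ?_
            long := ?_
            ray_zero := ?_
            ray_adj := ?_
            ray_per := ?_
            ray_inj := ?_
            nbr := ?_
            ray_int := ?_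
            ray_end := ?_
            cover := ?_ }, sv G n, fun a b h => sv_inj hn0 h, memB, ?_, ?_⟩
  · intro x hx
    obtain ⟨v, hv, rfl⟩ := (memB x).1 hx
    rw [sub_deg_sv hn0]
    exact hv
  · intro x hx
    obtain ⟨v, hv, rfl⟩ := (memB x).1 hx
    rw [sub_deg_sv hn0]
    exact hle v
  · intro x hx m
    obtain ⟨v, hv, rfl⟩ := (memB x).1 hx
    rw [hpre_sv, spt_zero (hnb1 v m)]
  · intro x hx m j hj
    obtain ⟨v, hv, rfl⟩ := (memB x).1 hx
    rw [hpre_sv]
    exact sub_adj_succ (hnb1 v m) hj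
  · intro x hx m m' j hmm
    obtain ⟨v, hv, rfl⟩ := (memB x).1 hx
    rw [sub_deg_sv hn0] at hmm
    rw [hpre_sv, (hnb2 v m m').2 hmm]
  · intro x hx m j m' j' hj hj' he
    obtain ⟨v, hv, rfl⟩ := (memB x).1 hx
    rw [hpre_sv] at he
    obtain ⟨h3, h4⟩ := spt_ray hn0 (hnb1 v m) (hnb1 v m') hj hj' he
    refine ⟨h3, ?_⟩
    rcases h4 with h4 | h4
    · exact Or.inl h4
    · right
      rw [sub_deg_sv hn0]
      exact (hnb2 v m m').1 h4
  · intro x hx w hw
    obtain ⟨v, hv, rfl⟩ := (memB x).1 hx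
    obtain ⟨b, hb1, hb2⟩ := (sub_adj_sv hn0 v w).1 hw
    obtain ⟨m, hm, hm2⟩ := hnb3 v b hb1
    refine ⟨m, ?_, ?_⟩
    · rw [sub_deg_sv hn0]
      exact hm
    · rw [hpre_sv, ← hm2]
      exact hb2
  · intro x hx m j hj0 hj w hw
    obtain ⟨v, hv, rfl⟩ := (memB x).1 hx
    rw [hpre_sv] at hw ⊢
    exact (sub_adj_inner (hnb1 v m) hj0 hj w).1 hw
  · intro x hx m
    obtain ⟨v, hv, rfl⟩ := (memB x).1 hx
    rw [hpre_sv]
    set u := nb v m with hu
    have hvu : G.Adj v u := hnb1 v m
    rw [spt_top hvu]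
    by_cases hdu : 3 ≤ deg G u
    · left
      refine ⟨(memB _).2 ⟨u, hdu, rfl⟩, ?_⟩
      obtain ⟨m', hm', hm2⟩ := hnb3 u v hvu.symm
      refine ⟨m', fun j hj => ?_⟩
      rw [hpre_sv, ← hm2]
      exact spt_swap hvu.symm hj
    · right
      intro w hw
      have hd1 : deg G u = 1 := by have := hpos u; have := h2 u; omega
      obtain ⟨b, hb1, hb2⟩ := (sub_adj_sv hn0 u w).1 hw
      have hbv : b = v := deg_one_nbr hvu.symm hd1 hb1
      rw [hb2, hbv]
      exact spt_swap hvu.symm hn0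
  · intro y
    have key : ∀ a b t, G.Adj a b → t ≤ n → 3 ≤ deg G a →
        ∃ x ∈ B, ∃ m j, j ≤ n ∧ spt G n a b t = spt G n (pre x) (nb (pre x) m) j := by
      intro a b t hab ht hda
      obtain ⟨m, hm, hm2⟩ := hnb3 a b hab
      refine ⟨sv G n a, (memB _).2 ⟨a, hda, rfl⟩, m, t, ht, ?_⟩
      rw [hpre_sv, ← hm2]
    have key2 : ∀ a b t, G.Adj a b → t ≤ n →
        ∃ x ∈ B, ∃ m j, j ≤ n ∧ spt G n a b t = spt G n (pre x) (nb (pre x) m) j := by
      intro a b t hab ht
      rcases hend a b hab with h | h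
      · exact key a b t hab ht h
      · rw [spt_swap hab ht]
        exact key b a (n - t) hab.symm (Nat.sub_le _ _) h
    rcases sub_cases hn0 y with ⟨a, rfl⟩ | ⟨a, b, t, hab, ht0, ht, rfl⟩
    · have h3 := hnb1 a 0
      rw [← spt_zero (n := n) h3]
      exact key2 a (nb a 0) 0 h3 (Nat.zero_le _)
    · exact key2 a b t hab ht.le
  · intro v hv
    exact sub_deg_sv hn0 v
  · obtain ⟨Φ, _⟩ := sub_homeo G hn0
    exact ⟨Φ⟩

end Pool.Agent.DB
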