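import Pool.Agent.DB.Defs

/-!
# DB-I-StarG: the star graph

PLAN.  Connected: everything is adjacent to `0`.  Acyclic: every edge is a bridge
(`SimpleGraph.isAcyclic_iff_forall_adj_isBridge`: after deleting the edge `0 j` the vertex `j` has no
neighbour), or count the edges.  `deg 0 = d` (the neighbour set is the complement of `{0}`), `deg j = 1`
for `j ≠ 0`.
-/

namespace Pool.Agent.DB

open Set

theorem starG_tree (d : ℕ) : (starG d).IsTree := by
  have hadj : ∀ j : Fin (d + 1), j ≠ 0 → (starG d).Adj 0 j := fun j hj => ⟨hj.symm, Or.inl rfl⟩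
  have hr : ∀ j : Fin (d + 1), (starG d).Reachable 0 j := by
    intro j
    by_cases h : j = 0
    · rw [h]
    · exact (hadj j h).reachable
  refine ⟨⟨fun a b => (hr a).symm.trans (hr b)⟩, ?_⟩
  rw [SimpleGraph.isAcyclic_iff_forall_adj_isBridge]
  intro v w hvw
  have key : ∀ j : Fin (d + 1), j ≠ 0 → ¬ ((starG d).deleteEdges {s(0, j)}).Reachable j 0 := by
    rintro j hj ⟨p⟩
    cases p with
    | nil => exact hj rfl
    | cons h q =>
      rw [SimpleGraph.deleteEdges_adj] at h
      rcases h.1.2 with h1 | h1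
      · exact hj h1
      · subst h1
        exact h.2 (Set.mem_singleton_iff.2 Sym2.eq_swap)
  rw [SimpleGraph.isBridge_iff]
  intro hr
  rcases hvw.2 with h1 | h1
  · subst h1
    exact key w hvw.1.symm hr.symm
  · subst h1
    rw [Sym2.eq_swap] at hr
    exact key v hvw.1 hr

theorem starG_deg_zero (d : ℕ) : deg (starG d) 0 = d := by
  unfold deg
  have h : (starG d).neighborSet 0 = {0}ᶜ := by
    ext j
    rw [SimpleGraph.mem_neighborSet, Set.mem_compl_iff, Set.mem_singleton_iff]
    constructor
    · intro h h0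
      exact h.1 h0.symm
    · intro h
      exact ⟨fun h0 => h h0.symm, Or.inl rfl⟩
  rw [h, Set.ncard_compl, Set.ncard_singleton, Nat.card_fin, Nat.add_sub_cancel]

theorem starG_deg (d : ℕ) {j : Fin (d + 1)} (h : j ≠ 0) : deg (starG d) j = 1 := by
  unfold deg
  have h1 : (starG d).neighborSet j = {0} := by
    ext i
    rw [SimpleGraph.mem_neighborSet, Set.mem_singleton_iff]
    constructor
    · rintro ⟨-, h2 | h2⟩
      · exact absurd h2 h
      · exact h2
    · rintro rfl
      exact ⟨h, Or.inr rfl⟩
  rw [h1, Set.ncard_singleton]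

theorem starG_bnum {d : ℕ} (hd : 3 ≤ d) : bnum (starG d) = 1 := by
  unfold bnum
  have h1 : {v : Fin (d + 1) | 3 ≤ deg (starG d) v} = {0} := by
    ext j
    rw [Set.mem_ofPred_eq, Set.mem_singleton_iff]
    constructor
    · intro h
      by_contra hj
      rw [starG_deg d hj] at h
      omega
    · rintro rfl
      rw [starG_deg_zero]
      exact hd
  rw [h1, Set.ncard_singleton]

theorem starG_beta (d : ℕ) : beta (starG d) = d - 2 := by
  unfold beta
  rw [Finset.sum_eq_single_of_mem 0 (Finset.mem_univ _), starG_deg_zero]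
  intro j _ hj
  rw [starG_deg d hj]
  rfl

/-- points of the realisation of the star: the arm `j` -/
theorem starG_cases {d : ℕ} {p : Fin (d + 1) → ℝ} (hd : 0 < d) (hp : p ∈ real (starG d)) :
    ∃ j : Fin (d + 1), j ≠ 0 ∧ ∃ t : ℝ, 0 ≤ t ∧ t ≤ 1 ∧ p = (1 - t) • ev 0 + t • ev j := by
  obtain ⟨a, b, hab, t, h0, h1, rfl⟩ := hp
  rcases hab with rfl | hab
  · have e1 : (1 - t) • ev a + t • (ev a : Fin (d + 1) → ℝ) = ev a := by
      rw [← add_smul, sub_add_cancel, one_smul]
    rw [e1]
    by_cases ha : a = 0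
    · subst ha
      have hl : Fin.last d ≠ 0 := by
        intro h
        have := congrArg Fin.val h
        simp at this
        omega
      exact ⟨Fin.last d, hl, 0, le_rfl, zero_le_one, by
        rw [sub_zero, one_smul, zero_smul, add_zero]⟩
    · exact ⟨a, ha, 1, zero_le_one, le_rfl, by rw [sub_self, one_smul, zero_smul, zero_add]⟩
  · rcases hab.2 with h2 | h2
    · subst h2
      exact ⟨b, hab.1.symm, t, h0, h1, rfl⟩
    · subst h2
      refine ⟨a, hab.1, 1 - t, by linarith, by linarith, ?_⟩
      rw [sub_sub_cancel]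
      exact add_comm _ _

end Pool.Agent.DB
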