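import Pool.Agent.DB.I.Order
import Pool.Agent.DB.I.ModelA
import Pool.Agent.DB.I.StarG

/-!
# DB-I-Model: models of trees (assembly, helper36)
-/

namespace Pool.Agent.DB

open Set

/-- every tree with a branch vertex has a model -/
theorem model_exists {V : Type} [Fintype V] [DecidableEq V] (G : SimpleGraph V) (hG : G.IsTree)
    (hb : 0 < bnum G) :
    ∃ M : Model, M.B.card = bnum G ∧ Nonempty (real M.G ≃ₜ real G) := by
  classical
  have hn : Nontrivial V := by
    have h1 : {v : V | 3 ≤ deg G v}.Nonempty := by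
      by_contra h
      rw [Set.not_nonempty_iff_eq_empty] at h
      unfold bnum at hb
      rw [h] at hb
      simp at hb
    obtain ⟨v, hv⟩ := h1
    have h2 : (G.neighborSet v).Nonempty := by
      by_contra h
      rw [Set.not_nonempty_iff_eq_empty] at h
      have h3 : 3 ≤ deg G v := hv
      unfold deg at h3
      rw [h] at h3
      simp at h3
    obtain ⟨u, hu⟩ := h2
    have hu' : G.Adj v u := hu
    exact ⟨v, u, hu'.ne⟩
  obtain ⟨W, i1, i2, A, t, n, d, b, be, ⟨Φ⟩⟩ := reduce _ G le_rfl hG hn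
  obtain ⟨M, ι, hι, hB, hd, ⟨Ψ⟩⟩ := model_of A t d (by rw [b]; exact hb)
  refine ⟨M, ?_, ⟨Ψ.trans Φ.symm⟩⟩
  rw [← b]
  have h1 : M.B = (Finset.univ.filter (fun v : W => 3 ≤ deg A v)).image ι := by
    ext y
    rw [hB y]
    simp
  rw [h1, Finset.card_image_of_injective _ hι]
  unfold bnum
  rw [Set.ncard_eq_toFinset_card']
  congr 1
  ext v
  simp

/-- the model of the star -/
theorem model_star (d : ℕ) (hd : 3 ≤ d) :
    ∃ (M : Model) (x : M.V), M.B = {x} ∧ M.d x = d ∧ Nonempty (real M.G ≃ₜ real (starG d)) := by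
  classical
  have h2 : ∀ v, deg (starG d) v ≠ 2 := by
    intro v
    by_cases hv : v = 0
    · rw [hv, starG_deg_zero]
      omega
    · rw [starG_deg d hv]
      omega
  obtain ⟨M, ι, hι, hB, hdd, hΨ⟩ := model_of (starG d) (starG_tree d) h2
    (by rw [starG_bnum hd]; norm_num)
  refine ⟨M, ι 0, ?_, ?_, hΨ⟩
  · ext y
    rw [hB y, Finset.mem_singleton]
    constructor
    · rintro ⟨v, hv, rfl⟩
      by_cases h0 : v = 0
      · rw [h0]
      · rw [starG_deg d h0] at hv
        omega
    · intro hy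
      refine ⟨0, ?_, hy.symm⟩
      rw [starG_deg_zero]
      exact hd
  · rw [hdd 0 (by rw [starG_deg_zero]; exact hd), starG_deg_zero]

end Pool.Agent.DB
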