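import Pool.Agent.DB.Defs

/-!
# DB-I-NerveA: the nerve graph of an open cover of a connected space is connected

PLAN.  `hA`: adjacency = two different members meet.  Suppose the vertices split (otherwise use
`SimpleGraph.connected_iff`/reachability classes): fix a vertex `i` (the space is non-empty, so some
`U i` is non-empty); let `P = ⋃ U j` over `j` reachable from `i`, `Q = ⋃ U j` over the other `j`: open,
cover `X`, disjoint (a common point of `U j`, `U k` makes `j`, `k` adjacent or equal).  `X` is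
connected (`isPreconnected_univ`, `IsPreconnected.subset_or_subset...`), `P` non-empty, so `Q` is empty,
so every `j` (with `U j` non-empty) is reachable from `i`.
`nerve_psi`: `e p i = if h : (U i).Nonempty then p ⟨i, h⟩ else 0` maps `real A` into `nerveReal U`
(the support of `p` is contained in a vertex or an edge; a vertex `U i` is non-empty, an edge has
`U i ∩ U j` non-empty; coordinates `≥ 0`, sum one), it is continuous and injective; compose with the
homeomorphism `nerveReal U ≃ₜ K` and the inclusions `K ⊆ real G ⊆ V → ℝ`.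
-/

namespace Pool.Agent.DB

open Set

theorem nerve_connected (X : Type) [TopologicalSpace X] [ConnectedSpace X] (n : ℕ)
    (U : Fin n → Set X) (hU : ∀ i, IsOpen (U i)) (hUc : ⋃ i, U i = univ)
    (A : SimpleGraph {i : Fin n // (U i).Nonempty})
    (hA : ∀ i j, A.Adj i j ↔ i ≠ j ∧ (U i.1 ∩ U j.1).Nonempty) : A.Connected := by
  have hpre : A.Preconnected := by
    intro i j
    by_contra hij
    have hP : IsOpen (⋃ k : {k : {i : Fin n // (U i).Nonempty} // A.Reachable i k}, U k.1.1) :=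
      isOpen_iUnion fun k => hU _
    have hQ : IsOpen (⋃ k : {k : {i : Fin n // (U i).Nonempty} // ¬ A.Reachable i k}, U k.1.1) :=
      isOpen_iUnion fun k => hU _
    have hcov : (univ : Set X) ⊆
        (⋃ k : {k : {i : Fin n // (U i).Nonempty} // A.Reachable i k}, U k.1.1) ∪
        (⋃ k : {k : {i : Fin n // (U i).Nonempty} // ¬ A.Reachable i k}, U k.1.1) := by
      intro x _
      have hx : x ∈ ⋃ i, U i := by rw [hUc]; trivial
      obtain ⟨k, hk⟩ := mem_iUnion.1 hx
      by_cases h : A.Reachable i ⟨k, ⟨x, hk⟩⟩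
      · exact Or.inl (mem_iUnion.2 ⟨⟨⟨k, ⟨x, hk⟩⟩, h⟩, hk⟩)
      · exact Or.inr (mem_iUnion.2 ⟨⟨⟨k, ⟨x, hk⟩⟩, h⟩, hk⟩)
    obtain ⟨x, hx⟩ := i.2
    obtain ⟨y, hy⟩ := j.2
    obtain ⟨z, -, hz1, hz2⟩ := isPreconnected_univ (α := X) _ _ hP hQ hcov
      ⟨x, trivial, mem_iUnion.2 ⟨⟨i, SimpleGraph.Reachable.refl i⟩, hx⟩⟩
      ⟨y, trivial, mem_iUnion.2 ⟨⟨j, hij⟩, hy⟩⟩
    obtain ⟨k, hk⟩ := mem_iUnion.1 hz1
    obtain ⟨l, hl⟩ := mem_iUnion.1 hz2
    apply l.2
    by_cases hkl : k.1 = l.1
    · rw [← hkl]; exact k.2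
    · exact k.2.trans (SimpleGraph.Adj.reachable ((hA _ _).2 ⟨hkl, ⟨z, hk, hl⟩⟩))
  have hne : Nonempty {i : Fin n // (U i).Nonempty} := by
    obtain ⟨x⟩ := (inferInstance : Nonempty X)
    have hx : x ∈ ⋃ i, U i := by rw [hUc]; trivial
    obtain ⟨k, hk⟩ := mem_iUnion.1 hx
    exact ⟨⟨k, ⟨x, hk⟩⟩⟩
  exact ⟨hpre⟩

/-- extension by zero of the coordinates -/
private noncomputable def ex {X : Type} {n : ℕ} (U : Fin n → Set X)
    (p : {i : Fin n // (U i).Nonempty} → ℝ) (i : Fin n) : ℝ :=
  open Classical in if h : (U i).Nonempty then p ⟨i, h⟩ else 0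

private theorem ex_pos {X : Type} {n : ℕ} (U : Fin n → Set X)
    (p : {i : Fin n // (U i).Nonempty} → ℝ) (i : {i : Fin n // (U i).Nonempty}) :
    ex U p i.1 = p i := by
  unfold ex
  rw [dif_pos i.2]

private theorem ex_neg {X : Type} {n : ℕ} (U : Fin n → Set X)
    (p : {i : Fin n // (U i).Nonempty} → ℝ) (i : Fin n) (h : ¬ (U i).Nonempty) :
    ex U p i = 0 := by
  unfold ex
  rw [dif_neg h]

private theorem ex_sum {X : Type} {n : ℕ} (U : Fin n → Set X)
    [Fintype {i : Fin n // (U i).Nonempty}]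
    (p : {i : Fin n // (U i).Nonempty} → ℝ) : ∑ i, ex U p i = ∑ i, p i := by
  classical
  have h1 : ∑ i, p i = ∑ i : {i : Fin n // (U i).Nonempty}, ex U p i.1 :=
    Finset.sum_congr rfl fun i _ => (ex_pos U p i).symm
  rw [h1]
  have h2 : ∑ i : {i : Fin n // (U i).Nonempty}, ex U p i.1 =
      ∑ i ∈ Finset.univ.filter (fun i => (U i).Nonempty), ex U p i := by
    symm
    apply Finset.sum_subtype
    intro x
    simp
  rw [h2]
  symm
  apply Finset.sum_subset (Finset.filter_subset _ _)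
  intro i _ hi
  apply ex_neg
  intro h
  exact hi (Finset.mem_filter.2 ⟨Finset.mem_univ _, h⟩)

private theorem ex_cont {X : Type} {n : ℕ} (U : Fin n → Set X) : Continuous (ex U) := by
  refine continuous_pi fun i => ?_
  by_cases h : (U i).Nonempty
  · have : (fun p => ex U p i) = fun p => p ⟨i, h⟩ := by
      funext p; exact ex_pos U p ⟨i, h⟩
    rw [this]
    exact continuous_apply _
  · have : (fun p => ex U p i) = fun _ => 0 := by
      funext p; exact ex_neg U p i h
    rw [this]
    exact continuous_const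

private theorem ex_inj {X : Type} {n : ℕ} (U : Fin n → Set X) : Function.Injective (ex U) := by
  intro p q h
  funext i
  rw [← ex_pos U p i, ← ex_pos U q i, h]

private theorem ex_mem {X : Type} {n : ℕ} (U : Fin n → Set X)
    [Fintype {i : Fin n // (U i).Nonempty}]
    (A : SimpleGraph {i : Fin n // (U i).Nonempty})
    (hA : ∀ i j, A.Adj i j ↔ i ≠ j ∧ (U i.1 ∩ U j.1).Nonempty)
    (p : {i : Fin n // (U i).Nonempty} → ℝ) (hp : p ∈ real A) : ex U p ∈ nerveReal U := by
  obtain ⟨a, b, hab, t, ht0, ht1, rfl⟩ := hp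
  have hval : ∀ c : {i : Fin n // (U i).Nonempty}, ((1 - t) • ev a + t • ev b :
      {i : Fin n // (U i).Nonempty} → ℝ) c =
      (1 - t) * (if c = a then 1 else 0) + t * (if c = b then 1 else 0) := by
    intro c
    simp only [Pi.add_apply, Pi.smul_apply, smul_eq_mul, ev, Pi.single_apply]
  refine ⟨?_, ?_, ?_⟩
  · intro i
    by_cases h : (U i).Nonempty
    · rw [ex_pos U _ ⟨i, h⟩, hval]
      have h1 : (0 : ℝ) ≤ if (⟨i, h⟩ : {i : Fin n // (U i).Nonempty}) = a then 1 else 0 := by
        split_ifs <;> norm_num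
      have h2 : (0 : ℝ) ≤ if (⟨i, h⟩ : {i : Fin n // (U i).Nonempty}) = b then 1 else 0 := by
        split_ifs <;> norm_num
      exact add_nonneg (mul_nonneg (by linarith) h1) (mul_nonneg ht0 h2)
    · rw [ex_neg U _ i h]
  · rw [ex_sum, Finset.sum_congr rfl fun c _ => hval c, Finset.sum_add_distrib,
      ← Finset.mul_sum, ← Finset.mul_sum, Finset.sum_ite_eq', Finset.sum_ite_eq']
    simp
  · have hsup : ∀ i : Fin n, ex U ((1 - t) • ev a + t • ev b) i ≠ 0 → i = a.1 ∨ i = b.1 := by
      intro i hi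
      by_cases h : (U i).Nonempty
      · rw [ex_pos U _ ⟨i, h⟩, hval] at hi
        by_contra hcon
        rw [not_or] at hcon
        apply hi
        rw [if_neg, if_neg]
        · ring
        · intro h'; exact hcon.2 (by rw [← h'])
        · intro h'; exact hcon.1 (by rw [← h'])
      · exact absurd (ex_neg U _ i h) hi
    obtain ⟨x, hxa, hxb⟩ : ∃ x, x ∈ U a.1 ∧ x ∈ U b.1 := by
      rcases hab with h | h
      · obtain ⟨x, hx⟩ := a.2
        exact ⟨x, hx, h ▸ hx⟩
      · obtain ⟨x, hx1, hx2⟩ := ((hA _ _).1 h).2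
        exact ⟨x, hx1, hx2⟩
    refine ⟨x, mem_iInter₂.2 fun i hi => ?_⟩
    rcases hsup i hi with h | h
    · rw [h]; exact hxa
    · rw [h]; exact hxb

theorem nerve_psi (X : Type) [TopologicalSpace X] (n : ℕ) (U : Fin n → Set X)
    {V : Type} [Fintype V] [DecidableEq V] (G : SimpleGraph V)
    (K : Set (real G)) (hK : Nonempty (nerveReal U ≃ₜ K))
    [Fintype {i : Fin n // (U i).Nonempty}]
    (A : SimpleGraph {i : Fin n // (U i).Nonempty})
    (hA : ∀ i j, A.Adj i j ↔ i ≠ j ∧ (U i.1 ∩ U j.1).Nonempty) :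
    ∃ ψ : ({i : Fin n // (U i).Nonempty} → ℝ) → V → ℝ, ContinuousOn ψ (real A) ∧
      InjOn ψ (real A) ∧ MapsTo ψ (real A) (real G) := by
  classical
  obtain ⟨Φ⟩ := hK
  have hm := fun p hp => ex_mem U A hA p hp
  set ψ : ({i : Fin n // (U i).Nonempty} → ℝ) → V → ℝ := fun p =>
    if h : ex U p ∈ nerveReal U then ((Φ ⟨ex U p, h⟩ : K) : real G).1 else 0 with hψ
  have hψv : ∀ p (hp : p ∈ real A), ψ p = ((Φ ⟨ex U p, hm p hp⟩ : K) : real G).1 := by
    intro p hp
    rw [hψ]
    exact dif_pos (hm p hp)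
  refine ⟨ψ, ?_, ?_, ?_⟩
  · rw [continuousOn_iff_continuous_domRestrict]
    have : (real A).domRestrict ψ = fun p : real A =>
        ((Φ ⟨ex U p.1, hm p.1 p.2⟩ : K) : real G).1 := by
      funext p
      exact hψv p.1 p.2
    rw [this]
    have h1 : Continuous fun p : real A => (⟨ex U p.1, hm p.1 p.2⟩ : nerveReal U) :=
      Continuous.subtype_mk ((ex_cont U).comp continuous_subtype_val) _
    exact continuous_subtype_val.comp (continuous_subtype_val.comp (Φ.continuous.comp h1))
  · intro p hp q hq h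
    rw [hψv p hp, hψv q hq] at h
    have h1 := Φ.injective (Subtype.val_injective (Subtype.val_injective h))
    exact ex_inj U (congrArg Subtype.val h1)
  · intro p hp
    rw [hψv p hp]
    exact ((Φ ⟨ex U p, hm p hp⟩ : K) : real G).2

end Pool.Agent.DB
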