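import Pool.Agent.DB.Top.Sep
import Pool.Agent.DB.Top.Conn

/-!
# DB-I-OrdA1: if the fibre of the vertex `w` is an interval in an open edge then `deg w ≤ 2`

PLAN.  Suppose `w` has three different neighbours `c₁, c₂, c₃` (`Set.two_lt_ncard_iff`-type lemma).  Choose
`q_i` with `f q_i = ev c_i`; `q_i` is not in the fibre, so `sg q_i < s` or `t < sg q_i`.  Two of them are
on the same side, say `q_i`, `q_j`, `i ≠ j`.  The side (`{p ∈ real G₂ | t < sg G₂ a b p}`, or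
`{1 - s < sg G₂ b a p}`, `sg_swap`) is connected (`conn_gt`); its image `C` under `f` is a connected
subset of `real G₁` which does not contain `ev w` but contains `ev c_i` and `ev c_j`.  By
`sg_clopen` (`0 < sg G₁ w c_i (ev c_i)`) `0 < sg G₁ w c_i (ev c_j)`, and `0 < sg G₁ w c_j (ev c_j)`:
`dir_unique` gives `c_i = c_j`.  Technical: images between subtypes and `V → ℝ`:
`Subtype.val '' (f '' {p | ...})`; the set `{p : real G₂ | t < sg G₂ a b p.1}` is the preimage of the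
connected set under `Subtype.val` (`IsInducing.isPreconnected_image` / `Subtype.preconnected...`).
-/

namespace Pool.Agent.DB

open Set

variable {V₁ V₂ : Type} [Fintype V₁] [DecidableEq V₁] [Fintype V₂] [DecidableEq V₂]

private theorem fb_same {G₁ : SimpleGraph V₁} {G₂ : SimpleGraph V₂} (h₁ : G₁.IsTree)
    (f : real G₂ → real G₁) (hf : Continuous f) (w : V₁) {S : Set (V₂ → ℝ)} (hS : S ⊆ real G₂)
    (hSc : IsPreconnected S) (hSf : ∀ p : real G₂, p.1 ∈ S → (f p).1 ≠ ev w) {q q' : real G₂}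
    (hq : q.1 ∈ S) (hq' : q'.1 ∈ S) {c c' : V₁} (hc : G₁.Adj w c) (hc' : G₁.Adj w c')
    (e : (f q).1 = ev c) (e' : (f q').1 = ev c') : c = c' := by
  have hS' : IsPreconnected (Subtype.val ⁻¹' S : Set (real G₂)) := by
    rw [← Topology.IsInducing.subtypeVal.isPreconnected_image, Subtype.image_preimage_coe,
      inter_eq_right.2 hS]
    exact hSc
  have hC := (hS'.image f hf.continuousOn).image Subtype.val continuous_subtype_val.continuousOn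
  have hCs : Subtype.val '' (f '' (Subtype.val ⁻¹' S : Set (real G₂))) ⊆ real G₁ := by
    rintro _ ⟨y, _, rfl⟩
    exact y.2
  have hCw : ev w ∉ Subtype.val '' (f '' (Subtype.val ⁻¹' S : Set (real G₂))) := by
    rintro ⟨_, ⟨p, hp, rfl⟩, hpw⟩
    exact hSf p hp hpw
  have m1 : ev c ∈ Subtype.val '' (f '' (Subtype.val ⁻¹' S : Set (real G₂))) :=
    ⟨f q, ⟨q, hq, rfl⟩, e⟩
  have m2 : ev c' ∈ Subtype.val '' (f '' (Subtype.val ⁻¹' S : Set (real G₂))) :=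
    ⟨f q', ⟨q', hq', rfl⟩, e'⟩
  have h0 : 0 < sg G₁ w c (ev c) := by
    rw [sg_ev_side (side_right G₁ w c)]
    exact one_pos
  have h0' : 0 < sg G₁ w c' (ev c') := by
    rw [sg_ev_side (side_right G₁ w c')]
    exact one_pos
  have h2 := sg_clopen h₁ hc hCs hC hCw m1 m2 h0
  exact dir_unique h₁ (ev_mem c') hc hc' h2 h0'

theorem fibre_branch {G₁ : SimpleGraph V₁} {G₂ : SimpleGraph V₂} (h₁ : G₁.IsTree)
    (h₂ : G₂.IsTree) (f : real G₂ → real G₁) (hf : Continuous f) (hs : Function.Surjective f)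
    (w : V₁) {a b : V₂} (hab : G₂.Adj a b) {s t : ℝ} (h0 : 0 < s) (hst : s ≤ t) (h1 : t < 1)
    (hF : ∀ p : real G₂, (f p).1 = ev w ↔ s ≤ sg G₂ a b p.1 ∧ sg G₂ a b p.1 ≤ t) :
    deg G₁ w ≤ 2 := by
  by_contra hcon
  have hcon' : 2 < (G₁.neighborSet w).ncard := not_le.1 hcon
  rw [Set.two_lt_ncard_iff] at hcon'
  obtain ⟨c₁, c₂, c₃, hc₁, hc₂, hc₃, h12, h13, h23⟩ := hcon'
  rw [SimpleGraph.mem_neighborSet] at hc₁ hc₂ hc₃
  -- the two sides
  have hR : IsPreconnected {p ∈ real G₂ | t < sg G₂ a b p} :=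
    (conn_gt h₂ hab (h0.le.trans hst) h1).isPreconnected
  have hL : IsPreconnected {p ∈ real G₂ | 1 - s < sg G₂ b a p} :=
    (conn_gt h₂ hab.symm (by linarith) (by linarith)).isPreconnected
  have hside : ∀ c, G₁.Adj w c → ∃ q : real G₂, (f q).1 = ev c ∧
      (q.1 ∈ {p ∈ real G₂ | t < sg G₂ a b p} ∨ q.1 ∈ {p ∈ real G₂ | 1 - s < sg G₂ b a p}) := by
    intro c hc
    obtain ⟨q, hq⟩ := hs ⟨ev c, ev_mem c⟩
    have hq' : (f q).1 = ev c := by rw [hq]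
    refine ⟨q, hq', ?_⟩
    have hne : ¬ (f q).1 = ev w := by
      rw [hq']
      intro h
      exact hc.ne (ev_inj h).symm
    rw [hF q] at hne
    by_cases h : t < sg G₂ a b q.1
    · exact Or.inl ⟨q.2, h⟩
    · right
      refine ⟨q.2, ?_⟩
      have h3 : sg G₂ a b q.1 < s := by
        by_contra h4
        exact hne ⟨not_lt.1 h4, not_lt.1 h⟩
      rw [sg_swap h₂ hab q.2]
      linarith
  have hRf : ∀ p : real G₂, p.1 ∈ {p ∈ real G₂ | t < sg G₂ a b p} → (f p).1 ≠ ev w := by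
    intro p hp h
    have h3 := ((hF p).1 h).2
    have h4 : t < sg G₂ a b p.1 := hp.2
    linarith
  have hLf : ∀ p : real G₂, p.1 ∈ {p ∈ real G₂ | 1 - s < sg G₂ b a p} → (f p).1 ≠ ev w := by
    intro p hp h
    have h3 := ((hF p).1 h).1
    have h4 : 1 - s < sg G₂ b a p.1 := hp.2
    rw [sg_swap h₂ hab p.2] at h4
    linarith
  obtain ⟨q₁, e₁, m₁⟩ := hside c₁ hc₁
  obtain ⟨q₂, e₂, m₂⟩ := hside c₂ hc₂
  obtain ⟨q₃, e₃, m₃⟩ := hside c₃ hc₃
  have kR : ∀ {q q' : real G₂} {c c' : V₁}, q.1 ∈ {p ∈ real G₂ | t < sg G₂ a b p} →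
      q'.1 ∈ {p ∈ real G₂ | t < sg G₂ a b p} → G₁.Adj w c → G₁.Adj w c' → (f q).1 = ev c →
      (f q').1 = ev c' → c = c' := fun hq hq' hc hc' e e' =>
    fb_same h₁ f hf w (sep_subset _ _) hR hRf hq hq' hc hc' e e'
  have kL : ∀ {q q' : real G₂} {c c' : V₁}, q.1 ∈ {p ∈ real G₂ | 1 - s < sg G₂ b a p} →
      q'.1 ∈ {p ∈ real G₂ | 1 - s < sg G₂ b a p} → G₁.Adj w c → G₁.Adj w c' → (f q).1 = ev c →
      (f q').1 = ev c' → c = c' := fun hq hq' hc hc' e e' =>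
    fb_same h₁ f hf w (sep_subset _ _) hL hLf hq hq' hc hc' e e'
  rcases m₁ with m₁ | m₁ <;> rcases m₂ with m₂ | m₂ <;> rcases m₃ with m₃ | m₃
  · exact h12 (kR m₁ m₂ hc₁ hc₂ e₁ e₂)
  · exact h12 (kR m₁ m₂ hc₁ hc₂ e₁ e₂)
  · exact h13 (kR m₁ m₃ hc₁ hc₃ e₁ e₃)
  · exact h23 (kL m₂ m₃ hc₂ hc₃ e₂ e₃)
  · exact h23 (kR m₂ m₃ hc₂ hc₃ e₂ e₃)
  · exact h13 (kL m₁ m₃ hc₁ hc₃ e₁ e₃)
  · exact h12 (kL m₁ m₂ hc₁ hc₂ e₁ e₂)
  · exact h12 (kL m₁ m₂ hc₁ hc₂ e₁ e₂)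

end Pool.Agent.DB
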