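import Pool.Agent.DB.Top.Sep
import Pool.Agent.DB.Top.Conn
import Pool.Agent.DB.Top.Cpt
import Pool.Agent.DB.I.MPre

/-!
# DB-I-OrdA2: if the fibre of the vertex `w` is an interval in an open edge then `deg w ≠ 1`

PLAN.  Let `u` be the only neighbour of `w` (`Set.ncard_eq_one`).  `ev a`, `ev b` are not in the fibre
(`sg = 0 < s`, `sg = 1 > t`), so `f (ev a)`, `f (ev b)` are not `ev w`; `exists_dir`:
`0 < sg G₁ w u (f (ev a))`, `0 < sg G₁ w u (f (ev b))`.  `ε` = minimum of the two (`≤ 1`).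
`C = {p : real G₁ | ε ≤ sg G₁ w u p}` is closed and connected (`conn_ge`).  `mono_preimage` (the space
`real G₂` is compact: `real_isCompact`): `f ⁻¹' C` is connected; it contains `ev a`, `ev b`, so by `sg_ivt`
(`θ = s`) the point `z` of the edge `ab` with parameter `s`; but `f z = ev w` (`hF`, `sg_edge`) and
`sg G₁ w u (ev w) = 0 < ε`: contradiction.
-/

namespace Pool.Agent.DB

open Set

variable {V₁ V₂ : Type} [Fintype V₁] [DecidableEq V₁] [Fintype V₂] [DecidableEq V₂]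

theorem fibre_leaf {G₁ : SimpleGraph V₁} {G₂ : SimpleGraph V₂} (h₁ : G₁.IsTree)
    (h₂ : G₂.IsTree) (f : real G₂ → real G₁) (hf : Continuous f)
    (hc : ∀ y, IsConnected (f ⁻¹' {y}))
    (w : V₁) {a b : V₂} (hab : G₂.Adj a b) {s t : ℝ} (h0 : 0 < s) (hst : s ≤ t) (h1 : t < 1)
    (hF : ∀ p : real G₂, (f p).1 = ev w ↔ s ≤ sg G₂ a b p.1 ∧ sg G₂ a b p.1 ≤ t) :
    deg G₁ w ≠ 1 := by
  intro hdeg
  obtain ⟨u, hu⟩ := Set.ncard_eq_one.1 hdeg
  have hwu : G₁.Adj w u := by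
    have : u ∈ G₁.neighborSet w := by
      rw [hu]
      exact mem_singleton u
    exact this
  have honly : ∀ v, G₁.Adj w v → v = u := by
    intro v hv
    have : v ∈ G₁.neighborSet w := hv
    rw [hu] at this
    exact this
  -- the two ends of the edge are outside of the fibre
  have hsa : sg G₂ a b (ev a) = 0 := sg_ev_not (side_left h₂ hab)
  have hsb : sg G₂ a b (ev b) = 1 := sg_ev_side (side_right G₂ a b)
  let pa : real G₂ := ⟨ev a, ev_mem a⟩
  let pb : real G₂ := ⟨ev b, ev_mem b⟩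
  have hna : (f pa).1 ≠ ev w := by
    intro h
    have h2 := ((hF pa).1 h).1
    change s ≤ sg G₂ a b (ev a) at h2
    rw [hsa] at h2
    linarith
  have hnb : (f pb).1 ≠ ev w := by
    intro h
    have h2 := ((hF pb).1 h).2
    change sg G₂ a b (ev b) ≤ t at h2
    rw [hsb] at h2
    linarith
  have hposa : 0 < sg G₁ w u (f pa).1 := by
    obtain ⟨v, hv, hp⟩ := exists_dir h₁ (f pa).2 hna
    rw [honly v hv] at hp
    exact hp
  have hposb : 0 < sg G₁ w u (f pb).1 := by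
    obtain ⟨v, hv, hp⟩ := exists_dir h₁ (f pb).2 hnb
    rw [honly v hv] at hp
    exact hp
  obtain ⟨ε, hε0, hεa, hεb⟩ : ∃ ε : ℝ, 0 < ε ∧ ε ≤ sg G₁ w u (f pa).1 ∧
      ε ≤ sg G₁ w u (f pb).1 :=
    ⟨min (sg G₁ w u (f pa).1) (sg G₁ w u (f pb).1), lt_min hposa hposb, min_le_left _ _,
      min_le_right _ _⟩
  have hε1 : ε ≤ 1 := hεa.trans (sg_le_one w u (f pa).2)
  -- the far part of the target
  have hconn : IsConnected {p ∈ real G₁ | ε ≤ sg G₁ w u p} := conn_ge h₁ hwu hε0 hε1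
  let C : Set (real G₁) := {p | ε ≤ sg G₁ w u p.1}
  have hCcl : IsClosed C :=
    isClosed_le continuous_const ((sg_continuous G₁ w u).comp continuous_subtype_val)
  have hCeq : C = Subtype.val ⁻¹' {p ∈ real G₁ | ε ≤ sg G₁ w u p} := by
    ext p
    exact ⟨fun h => ⟨p.2, h⟩, fun h => h.2⟩
  have himg : Subtype.val '' C = {p ∈ real G₁ | ε ≤ sg G₁ w u p} := by
    ext p
    constructor
    · rintro ⟨q, hq, rfl⟩
      exact ⟨q.2, hq⟩
    · rintro ⟨hp, hq⟩
      exact ⟨⟨p, hp⟩, hq, rfl⟩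
  have hCc : IsConnected C := by
    refine ⟨⟨f pa, hεa⟩, ?_⟩
    rw [← Topology.IsInducing.subtypeVal.isPreconnected_image, himg]
    exact hconn.isPreconnected
  have : CompactSpace (real G₂) := isCompact_iff_compactSpace.mp (real_isCompact G₂)
  have hpre : IsConnected (f ⁻¹' C) := mono_preimage hf hc hCcl hCc
  -- pushed to the ambient space
  have hpre2 : IsPreconnected (Subtype.val '' (f ⁻¹' C) : Set (V₂ → ℝ)) :=
    hpre.isPreconnected.image _ continuous_subtype_val.continuousOn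
  have hsub : (Subtype.val '' (f ⁻¹' C) : Set (V₂ → ℝ)) ⊆ real G₂ := by
    rintro _ ⟨q, _, rfl⟩
    exact q.2
  have hma : (ev a : V₂ → ℝ) ∈ (Subtype.val '' (f ⁻¹' C) : Set (V₂ → ℝ)) := ⟨pa, hεa, rfl⟩
  have hmb : (ev b : V₂ → ℝ) ∈ (Subtype.val '' (f ⁻¹' C) : Set (V₂ → ℝ)) := ⟨pb, hεb, rfl⟩
  have hs1 : s < 1 := lt_of_le_of_lt hst h1
  obtain ⟨z, hz, hzv⟩ := sg_ivt h₂ hab hsub hpre2 hma hmb h0 hs1 (by rw [hsa]; exact h0.le)
    (by rw [hsb]; exact hs1.le)
  have hsz : sg G₂ a b z.1 = s := by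
    rw [hzv]
    exact sg_edge h₂ hab s
  have hfz : (f z).1 = ev w := by
    refine (hF z).2 ?_
    rw [hsz]
    exact ⟨le_rfl, hst⟩
  have hz2 : ε ≤ sg G₁ w u (f z).1 := hz
  rw [hfz, sg_ev_not (side_left h₁ hwu)] at hz2
  linarith

end Pool.Agent.DB
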