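import Pool.Agent.DB.Top.Sep
import Pool.Agent.DB.Top.Conn
import Pool.Agent.DB.Top.Cpt

/-!
# DB-I-OrdB: from a monotone map to a graph isomorphism

PLAN.  `vertex_bij`: choose `u : V₁ → V₂`, injective (`ev_inj`), so bijective by the cardinalities
(`Fintype.bijective_iff_injective_and_card`); `π` is its inverse.
`adj_pres`: suppose `π v`, `π v'` are not adjacent (they are different).  `exists_side`: a neighbour `w` of
`π v` with `side G₁ (π v) w (π v')`; `w ≠ π v'`.  At `w`: `C = f '' [v, v']` is connected and contains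
`ev (π v)`, `ev (π v')`.  If `ev w ∉ C`: `sg_clopen` (`w`, neighbour `π v`, `0 < sg G₁ w (π v) (ev (π v))`)
gives `0 < sg G₁ w (π v) (ev (π v'))`, i.e. `side G₁ w (π v) (π v')`, contradiction to `side_symm`.
So `ev w = f x`, `x` on the segment `[v, v']`, `x ≠ ev v, ev v'` (`w ≠ π v, π v'`), `x` interior.
`w = π v''`, `v'' ≠ v, v'`.  The fibre `F` of `ev w` is connected and contains `x` and `ev v''`, but not
`ev v`, `ev v'` (`π` injective).  `sg_clopen` at `v` (neighbour `v'`, `0 < sg G₂ v v' x`):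
`0 < sg G₂ v v' (ev v'')`, so `side G₂ v v' v''`; at `v'` (neighbour `v`): `side G₂ v' v v''`;
contradiction to `side_symm`.
`iso_of`: `G₂ ≤ G₁.comap π`, both trees on `V₂` (`SimpleGraph.Iso.comap`...), and a tree is a minimal
connected graph (`SimpleGraph.isTree_iff_minimal_connected`), so they are equal.
(Or: the same number of edges.)
`real_iso`: reindexing `p ↦ p ∘ π` is linear; `real_homeo`.
-/

namespace Pool.Agent.DB

open Set

variable {V₁ V₂ : Type} [Fintype V₁] [DecidableEq V₁] [Fintype V₂] [DecidableEq V₂]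

theorem vertex_bij {G₁ : SimpleGraph V₁} {G₂ : SimpleGraph V₂} (f : real G₂ → real G₁)
    (hv : ∀ w : V₁, ∃ u : V₂, (f ⟨ev u, ev_mem u⟩).1 = ev w)
    (hcard : Fintype.card V₂ ≤ Fintype.card V₁) :
    ∃ π : V₂ ≃ V₁, ∀ v, (f ⟨ev v, ev_mem v⟩).1 = ev (π v) := by
  choose u hu using hv
  have hi : Function.Injective u := by
    intro w w' h
    apply ev_inj
    rw [← hu w, ← hu w', h]
  have hb : Function.Bijective u :=
    (Fintype.bijective_iff_injective_and_card u).2
      ⟨hi, le_antisymm (Fintype.card_le_of_injective u hi) hcard⟩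
  refine ⟨(Equiv.ofBijective u hb).symm, fun v => ?_⟩
  rw [← hu]
  have h : u ((Equiv.ofBijective u hb).symm v) = v := (Equiv.ofBijective u hb).apply_symm_apply v
  simp only [h]

theorem adj_pres {G₁ : SimpleGraph V₁} {G₂ : SimpleGraph V₂} (h₁ : G₁.IsTree)
    (h₂ : G₂.IsTree) (f : real G₂ → real G₁) (hf : Continuous f)
    (hc : ∀ y, IsConnected (f ⁻¹' {y})) (π : V₂ ≃ V₁)
    (hπ : ∀ v, (f ⟨ev v, ev_mem v⟩).1 = ev (π v)) {v v' : V₂} (h : G₂.Adj v v') :
    G₁.Adj (π v) (π v') := by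
  by_contra hcon
  have hne : π v' ≠ π v := fun he => h.ne (π.injective he).symm
  obtain ⟨w, hw, hside⟩ := exists_side h₁ hne
  have hwv' : w ≠ π v' := by
    rintro rfl
    exact hcon hw
  -- the image of the segment
  let s : Icc (0 : ℝ) 1 → real G₂ := fun t =>
    ⟨(1 - t.1) • ev v + t.1 • ev v', edge_mem h t.2.1 t.2.2⟩
  have hs : Continuous s := by
    refine Continuous.subtype_mk ?_ _
    fun_prop
  set C : Set (V₁ → ℝ) := range (fun t => (f (s t)).1) with hC
  have hCsub : C ⊆ real G₁ := by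
    rintro _ ⟨t, rfl⟩
    exact (f (s t)).2
  have hCc : IsPreconnected C :=
    isPreconnected_range (continuous_subtype_val.comp (hf.comp hs))
  have hs0 : s ⟨0, by simp⟩ = ⟨ev v, ev_mem v⟩ := Subtype.ext (by simp [s])
  have hs1 : s ⟨1, by simp⟩ = ⟨ev v', ev_mem v'⟩ := Subtype.ext (by simp [s])
  have hv0 : ev (π v) ∈ C := ⟨⟨0, by simp⟩, by simp only [hs0, hπ]⟩
  have hv1 : ev (π v') ∈ C := ⟨⟨1, by simp⟩, by simp only [hs1, hπ]⟩
  by_cases hwC : ev w ∈ C
  · obtain ⟨t, ht⟩ := hwC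
    set F : Set (real G₂) := f ⁻¹' {⟨ev w, ev_mem w⟩} with hF
    set F' : Set (V₂ → ℝ) := Subtype.val '' F with hF'
    have hF'c : IsPreconnected F' := (hc _).isPreconnected.image _ continuous_subtype_val.continuousOn
    have hF'sub : F' ⊆ real G₂ := by
      rintro _ ⟨x, -, rfl⟩
      exact x.2
    have hnot : ∀ z : V₂, π z ≠ w → ev z ∉ F' := by
      rintro z hz ⟨x, hx, hxz⟩
      apply hz
      apply ev_inj
      rw [← hπ z]
      have : x = ⟨ev z, ev_mem z⟩ := Subtype.ext hxz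
      rw [← this]
      exact congrArg Subtype.val hx
    have hvF : ev v ∉ F' := hnot v hw.ne
    have hv'F : ev v' ∉ F' := hnot v' hwv'.symm
    have hxF : (s t).1 ∈ F' := ⟨s t, Subtype.ext ht, rfl⟩
    have hvF'' : ev (π.symm w) ∈ F' :=
      ⟨⟨ev (π.symm w), ev_mem _⟩, Subtype.ext (by rw [hπ, Equiv.apply_symm_apply]), rfl⟩
    have ht0 : 0 < t.1 := by
      refine lt_of_le_of_ne t.2.1 fun h0 => hvF ?_
      have : (s t).1 = ev v := by simp [s, ← h0]
      rw [← this]
      exact hxF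
    have ht1 : t.1 < 1 := by
      refine lt_of_le_of_ne t.2.2 fun h0 => hv'F ?_
      have : (s t).1 = ev v' := by simp [s, h0]
      rw [← this]
      exact hxF
    have e1 : 0 < sg G₂ v v' (s t).1 := by
      show 0 < sg G₂ v v' ((1 - t.1) • ev v + t.1 • ev v')
      rw [sg_edge h₂ h]
      exact ht0
    have e2 : 0 < sg G₂ v' v (s t).1 := by
      show 0 < sg G₂ v' v ((1 - t.1) • ev v + t.1 • ev v')
      rw [edge_symm, sg_edge h₂ h.symm]
      linarith
    have e3 := sg_clopen h₂ h hF'sub hF'c hvF hxF hvF'' e1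
    have e4 := sg_clopen h₂ h.symm hF'sub hF'c hv'F hxF hvF'' e2
    have e5 : side G₂ v v' (π.symm w) := by
      by_contra hn
      rw [sg_ev_not hn] at e3
      exact lt_irrefl _ e3
    have e6 : side G₂ v' v (π.symm w) := by
      by_contra hn
      rw [sg_ev_not hn] at e4
      exact lt_irrefl _ e4
    exact (side_symm h₂ h _).1 e6 e5
  · have e1 := sg_clopen h₁ hw.symm hCsub hCc hwC hv0 hv1
      (by rw [sg_ev_side (side_right G₁ w (π v))]; exact one_pos)
    have e2 : side G₁ w (π v) (π v') := by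
      by_contra hn
      rw [sg_ev_not hn] at e1
      exact lt_irrefl _ e1
    exact (side_symm h₁ hw _).1 e2 hside

theorem iso_of {G₁ : SimpleGraph V₁} {G₂ : SimpleGraph V₂} (h₁ : G₁.IsTree)
    (h₂ : G₂.IsTree) (π : V₂ ≃ V₁) (h : ∀ v v', G₂.Adj v v' → G₁.Adj (π v) (π v')) (v v' : V₂) :
    G₂.Adj v v' ↔ G₁.Adj (π v) (π v') := by
  refine ⟨h v v', fun hadj => ?_⟩
  have hT : (G₁.comap π).IsTree := (SimpleGraph.Iso.comap π G₁).isTree_iff.2 h₁
  have hle : G₂ ≤ G₁.comap π := fun a b hab => h a b hab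
  exact (SimpleGraph.isTree_iff_minimal_connected.1 hT).2 h₂.connected hle hadj

theorem real_iso {G₁ : SimpleGraph V₁} {G₂ : SimpleGraph V₂} (π : V₂ ≃ V₁)
    (h : ∀ v v', G₂.Adj v v' ↔ G₁.Adj (π v) (π v')) : Nonempty (real G₁ ≃ₜ real G₂) := by
  have hev : ∀ a : V₁, (fun v => (ev a : V₁ → ℝ) (π v)) = ev (π.symm a) := by
    intro a
    funext v
    rw [ev_apply, ev_apply]
    simp [Equiv.eq_symm_apply]
  have hm : ∀ (a b : V₁) (t : ℝ), (fun v => ((1 - t) • ev a + t • ev b : V₁ → ℝ) (π v)) =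
      (1 - t) • ev (π.symm a) + t • ev (π.symm b) := by
    intro a b t
    rw [← hev a, ← hev b]
    rfl
  have hP : Continuous (fun (p : V₁ → ℝ) (v : V₂) => p (π v)) := by fun_prop
  have key : ∃ Φ : real G₁ ≃ₜ real G₂, ∀ p, (Φ p).1 = fun v => p.1 (π v) := by
    refine real_homeo (A := G₁) (G := G₂) (fun p v => p (π v)) hP ?_ ?_ ?_
    · rintro _ ⟨a, b, hab, t, h0, h1, rfl⟩
      simp only [hm]
      refine ⟨π.symm a, π.symm b, ?_, t, h0, h1, rfl⟩
      rcases hab with hab | hab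
      · exact Or.inl (by rw [hab])
      · exact Or.inr ((h _ _).2 (by simpa using hab))
    · intro p _ q _ hpq
      funext w
      have := congrFun hpq (π.symm w)
      simpa using this
    · rintro _ ⟨a, b, hab, t, h0, h1, rfl⟩
      refine ⟨(1 - t) • ev (π a) + t • ev (π b), ⟨π a, π b, ?_, t, h0, h1, rfl⟩, ?_⟩
      · rcases hab with hab | hab
        · exact Or.inl (by rw [hab])
        · exact Or.inr ((h _ _).1 hab)
      · simp only [hm, Equiv.symm_apply_apply]
  obtain ⟨Φ, -⟩ := key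
  exact ⟨Φ⟩

end Pool.Agent.DB
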