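import Pool.Agent.DB.I.RedDef
import Pool.Agent.DB.Top.Cpt

/-!
# DB-I-RedB: deleting a vertex of degree two: the realisation does not change

PLAN.  `P p u = p u + (if G.Adj v u then p v / 2 else 0)` for `u ≠ v`.  Neighbours of `v`: `a ≠ b`.
`P` is linear.  On an edge `xy` of `G` with `x, y ≠ v`: `P ((1-t) ev x + t ev y) = (1-t) ev x + t ev y`;
on the edge `a v`: `P ((1-t) ev a + t ev v) = (1 - t/2) ev a + (t/2) ev b`, the same for `b`.
So `P` maps `real G` onto `real (redG G v)` (the point `(1-s) ev a + s ev b` comes from the edge `a v`,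
`t = 2s`, if `s ≤ 1/2`, otherwise from the edge `b v`), injectively: if `P p` has a non-zero coordinate
outside `a, b` then `p v = 0` and `p` is `P p` extended by `0`; otherwise `p` is on `a v` or `v b` (`a`, `b`
are not adjacent in `G`: tree) and `p` is determined by `P p`.  Then `real_homeo`.
-/

namespace Pool.Agent.DB

open Set

variable {V : Type} [Fintype V] [DecidableEq V] {G : SimpleGraph V} {v : V}

omit [Fintype V] [DecidableEq V] in
private theorem nb (hv : deg G v = 2) :
    ∃ a b, a ≠ b ∧ G.Adj v a ∧ G.Adj v b ∧ ∀ w, G.Adj v w → w = a ∨ w = b := by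
  obtain ⟨a, b, hab, h⟩ := Set.ncard_eq_two.1 hv
  have h1 : ∀ w, G.Adj v w ↔ w = a ∨ w = b := fun w => by
    have h2 : w ∈ G.neighborSet v ↔ w ∈ ({a, b} : Set V) := by rw [h]
    simpa using h2
  exact ⟨a, b, hab, (h1 a).2 (Or.inl rfl), (h1 b).2 (Or.inr rfl), fun w hw => (h1 w).1 hw⟩

omit [Fintype V] [DecidableEq V] in
private theorem no_tri (hG : G.IsTree) {a b c : V} (h1 : G.Adj a b) (h2 : G.Adj b c)
    (h3 : G.Adj a c) : False := by
  refine hG.dist_ne_of_adj a h2 ?_
  rw [SimpleGraph.dist_eq_one_iff_adj.2 h1, SimpleGraph.dist_eq_one_iff_adj.2 h3]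

omit [Fintype V] [DecidableEq V] in
private theorem nb' (hv : deg G v = 2) {u : V} (hu : G.Adj u v) :
    ∃ c, c ≠ u ∧ G.Adj v c ∧ ∀ w, G.Adj v w → w = u ∨ w = c := by
  obtain ⟨a, b, hab, ha, hb, h⟩ := nb hv
  rcases h u hu.symm with h1 | h1
  · subst h1
    exact ⟨b, hab.symm, hb, h⟩
  · subst h1
    exact ⟨a, hab, ha, fun w hw => (h w hw).symm⟩

open Classical in
/-- the projection -/
private noncomputable def PP (G : SimpleGraph V) (v : V) (p : V → ℝ) (u : {u : V // u ≠ v}) : ℝ :=
  p u.1 + (if G.Adj v u.1 then p v / 2 else 0)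

omit [Fintype V] [DecidableEq V] in
private theorem PP_lin (s t : ℝ) (p q : V → ℝ) :
    PP G v (s • p + t • q) = s • PP G v p + t • PP G v q := by
  funext u
  unfold PP
  simp only [Pi.add_apply, Pi.smul_apply, smul_eq_mul]
  split_ifs <;> ring

omit [Fintype V] [DecidableEq V] in
private theorem PP_cont : Continuous (PP G v) := by
  refine continuous_pi fun u => ?_
  unfold PP
  split_ifs
  · exact (continuous_apply _).add ((continuous_apply _).div_const _)
  · exact (continuous_apply _).add continuous_const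

omit [Fintype V] in
private theorem PP_ev {u : V} (hu : u ≠ v) : PP G v (ev u) = ev ⟨u, hu⟩ := by
  funext w
  unfold PP
  rw [ev_apply, ev_apply, ev_apply, if_neg hu.symm, zero_div, ite_self, add_zero]
  by_cases h : w.1 = u
  · rw [if_pos h, if_pos (Subtype.ext h)]
  · rw [if_neg h, if_neg fun h1 => h (congrArg Subtype.val h1)]

omit [Fintype V] in
private theorem PP_v {x y : V} (hxy : x ≠ y) (hx : G.Adj v x) (hy : G.Adj v y)
    (h : ∀ w, G.Adj v w → w = x ∨ w = y) :
    PP G v (ev v) = (1 / 2 : ℝ) • ev ⟨x, hx.ne'⟩ + (1 / 2 : ℝ) • ev ⟨y, hy.ne'⟩ := by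
  funext w
  unfold PP
  rw [Pi.add_apply, Pi.smul_apply, Pi.smul_apply, ev_apply, ev_apply, ev_apply, ev_apply,
    if_neg w.2, if_pos rfl, zero_add, smul_eq_mul, smul_eq_mul]
  by_cases hwx : w.1 = x
  · have h1 : w = ⟨x, hx.ne'⟩ := Subtype.ext hwx
    have h2 : w ≠ ⟨y, hy.ne'⟩ := fun h2 => hxy (hwx.symm.trans (congrArg Subtype.val h2))
    rw [if_pos h1, if_neg h2, if_pos (hwx ▸ hx)]
    ring
  · have h1 : w ≠ ⟨x, hx.ne'⟩ := fun h2 => hwx (congrArg Subtype.val h2)
    by_cases hwy : w.1 = y
    · have h2 : w = ⟨y, hy.ne'⟩ := Subtype.ext hwy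
      rw [if_neg h1, if_pos h2, if_pos (hwy ▸ hy)]
      ring
    · have h2 : w ≠ ⟨y, hy.ne'⟩ := fun h2 => hwy (congrArg Subtype.val h2)
      have h3 : ¬ G.Adj v w.1 := fun h3 => (h _ h3).elim hwx hwy
      rw [if_neg h1, if_neg h2, if_neg h3]
      ring

omit [Fintype V] in
/-- the two halves of the new edge -/
private theorem half (hv : deg G v = 2) {x : V} (hx : G.Adj x v) {t : ℝ} (h0 : 0 ≤ t)
    (h1 : t ≤ 1) : PP G v ((1 - t) • ev x + t • ev v) ∈ real (redG G v) := by
  obtain ⟨c, hcx, hvc, hc⟩ := nb' hv hx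
  rw [PP_lin, PP_ev hx.ne, PP_v hcx.symm hx.symm hvc hc]
  refine ⟨⟨x, hx.ne⟩, ⟨c, hvc.ne'⟩, Or.inr (Or.inr ⟨fun h => hcx (congrArg Subtype.val h).symm,
    hx, hvc⟩), t / 2, by linarith, by linarith, ?_⟩
  funext w
  simp only [Pi.add_apply, Pi.smul_apply, smul_eq_mul]
  ring

theorem red_homeo (hG : G.IsTree) (hv : deg G v = 2) :
    Nonempty (real G ≃ₜ real (redG G v)) := by
  obtain ⟨a, b, hab, ha, hb, hn⟩ := nb hv
  have hm : MapsTo (PP G v) (real G) (real (redG G v)) := by
    rintro p ⟨x, y, hxy, t, h0, h1, rfl⟩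
    by_cases hx : x = v
    · subst hx
      by_cases hy : y = x
      · subst hy
        have h2 : (1 - t) • ev y + t • ev y = (1 - (1 : ℝ)) • ev a + (1 : ℝ) • (ev y : V → ℝ) := by
          funext w
          simp only [Pi.add_apply, Pi.smul_apply, smul_eq_mul]
          ring
        rw [h2]
        exact half hv ha.symm zero_le_one le_rfl
      · have hadj : G.Adj y x := by
          rcases hxy with h | h
          · exact absurd h.symm hy
          · exact h.symm
        rw [edge_symm]
        exact half hv hadj (by linarith) (by linarith)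
    · by_cases hy : y = v
      · subst hy
        have hadj : G.Adj x y := by
          rcases hxy with h | h
          · exact absurd h hx
          · exact h
        exact half hv hadj h0 h1
      · rw [PP_lin, PP_ev hx, PP_ev hy]
        refine ⟨⟨x, hx⟩, ⟨y, hy⟩, ?_, t, h0, h1, rfl⟩
        rcases hxy with h | h
        · exact Or.inl (Subtype.ext h)
        · exact Or.inr (Or.inl h)
  have hi : InjOn (PP G v) (real G) := by
    intro p hp q hq hpq
    have h1 : ∀ u (hu : u ≠ v), ¬ G.Adj v u → p u = q u := by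
      intro u hu hadj
      have h2 := congrFun hpq ⟨u, hu⟩
      unfold PP at h2
      rw [if_neg hadj, if_neg hadj, add_zero, add_zero] at h2
      exact h2
    have h2 : ∀ u, G.Adj v u → p u + p v / 2 = q u + q v / 2 := by
      intro u hadj
      have h2 := congrFun hpq ⟨u, hadj.ne'⟩
      unfold PP at h2
      rw [if_pos hadj, if_pos hadj] at h2
      exact h2
    have hA := h2 a ha
    have hB := h2 b hb
    have hno : ∀ r : V → ℝ, r ∈ real G → 0 < r a → 0 < r b → False := by
      intro r hr hra hrb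
      rcases real_supp hr hra.ne' hrb.ne' with h3 | h3
      · exact hab h3
      · exact no_tri hG ha.symm hb h3
    have hpa := real_nonneg hp a
    have hpb := real_nonneg hp b
    have hqa := real_nonneg hq a
    have hqb := real_nonneg hq b
    have hv' : p v = q v := by
      rcases lt_trichotomy (p v) (q v) with h | h | h
      · exact (hno p hp (by linarith) (by linarith)).elim
      · exact h
      · exact (hno q hq (by linarith) (by linarith)).elim
    funext u
    by_cases hu : u = v
    · rw [hu, hv']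
    · by_cases hadj : G.Adj v u
      · have h3 := h2 u hadj
        linarith
      · exact h1 u hu hadj
  have hs : SurjOn (PP G v) (real G) (real (redG G v)) := by
    rintro r ⟨x, y, hxy, t, h0, h1, rfl⟩
    have hold : (x.1 = y.1 ∨ G.Adj x.1 y.1) →
        (1 - t) • ev x + t • ev y ∈ PP G v '' real G := by
      intro h
      refine ⟨(1 - t) • ev x.1 + t • ev y.1, ⟨x.1, y.1, h, t, h0, h1, rfl⟩, ?_⟩
      rw [PP_lin, PP_ev x.2, PP_ev y.2]
    rcases hxy with h | h | ⟨hne, hxv, hvy⟩
    · exact hold (Or.inl (congrArg Subtype.val h))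
    · exact hold (Or.inr h)
    · have hne' : x.1 ≠ y.1 := fun h => hne (Subtype.ext h)
      have hn' : ∀ w, G.Adj v w → w = x.1 ∨ w = y.1 := by
        obtain ⟨c, hcx, hvc, hc⟩ := nb' hv hxv
        have h2 : y.1 = c := (hc _ hvy).resolve_left hne'.symm
        rw [h2]
        exact hc
      have hP := PP_v hne' hxv.symm hvy hn'
      rcases le_total t (1 / 2) with ht | ht
      · refine ⟨(1 - 2 * t) • ev x.1 + (2 * t) • ev v,
          ⟨x.1, v, Or.inr hxv, 2 * t, by linarith, by linarith, rfl⟩, ?_⟩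
        rw [PP_lin, PP_ev x.2, hP]
        funext w
        simp only [Pi.add_apply, Pi.smul_apply, smul_eq_mul]
        ring
      · refine ⟨(1 - (2 * t - 1)) • ev v + (2 * t - 1) • ev y.1,
          ⟨v, y.1, Or.inr hvy, 2 * t - 1, by linarith, by linarith, rfl⟩, ?_⟩
        rw [PP_lin, PP_ev y.2, hP]
        funext w
        simp only [Pi.add_apply, Pi.smul_apply, smul_eq_mul]
        ring
  obtain ⟨Φ, _⟩ := real_homeo (PP G v) PP_cont hm hi hs
  exact ⟨Φ⟩

end Pool.Agent.DB
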