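import Pool.Agent.DB.I.RedA
import Pool.Agent.DB.I.RedB
import Pool.Agent.DB.I.OrdA0
import Pool.Agent.DB.I.OrdA1
import Pool.Agent.DB.I.OrdA2
import Pool.Agent.DB.I.OrdB

/-!
# DB-I-Order: the order of trees (assembly, helper36)
-/

namespace Pool.Agent.DB

open Set

/-- every tree is homeomorphic to a tree without vertices of degree two -/
theorem reduce (m : ℕ) : ∀ {V : Type} [Fintype V] [DecidableEq V] (G : SimpleGraph V),
    Fintype.card V ≤ m → G.IsTree → Nontrivial V →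
    ∃ (V' : Type) (_ : Fintype V') (_ : DecidableEq V') (G' : SimpleGraph V'), G'.IsTree ∧
      Nontrivial V' ∧ (∀ v, deg G' v ≠ 2) ∧ bnum G' = bnum G ∧ beta G' = beta G ∧
      Nonempty (real G ≃ₜ real G') := by
  induction m with
  | zero =>
    intro V _ _ G hm _ hn
    exact absurd (Fintype.card_pos (α := V)) (by omega)
  | succ m ih =>
    intro V _ _ G hm hG hn
    by_cases h : ∀ v, deg G v ≠ 2
    · exact ⟨V, inferInstance, inferInstance, G, hG, hn, h, rfl, rfl, ⟨Homeomorph.refl _⟩⟩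
    · push Not at h
      obtain ⟨v, hv⟩ := h
      have hcard : Fintype.card {u : V // u ≠ v} + 1 = Fintype.card V := by
        rw [Fintype.card_subtype_compl]
        simp
        have := Fintype.card_pos (α := V)
        omega
      have hn' : Nontrivial {u : V // u ≠ v} := by
        obtain ⟨a, b, hab, hN⟩ := Set.ncard_eq_two.1 hv
        have ha : G.Adj v a := by
          have : a ∈ G.neighborSet v := by rw [hN]; simp
          exact this
        have hb : G.Adj v b := by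
          have : b ∈ G.neighborSet v := by rw [hN]; simp
          exact this
        exact ⟨⟨a, ha.ne'⟩, ⟨b, hb.ne'⟩, fun h => hab (congrArg Subtype.val h)⟩
      obtain ⟨V', i1, i2, G', h1, h2, h3, h4, h5, ⟨h6⟩⟩ :=
        ih (redG G v) (by omega) (red_tree hG hv) hn'
      obtain ⟨h7⟩ := red_homeo hG hv
      exact ⟨V', i1, i2, G', h1, h2, h3, h4.trans (red_bnum hG hv), h5.trans (red_beta hG hv),
        ⟨h7.trans h6⟩⟩

/-- every vertex of the image tree is the image of a vertex -/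
theorem exists_vertex_fibre {V₁ V₂ : Type} [Fintype V₁] [DecidableEq V₁] [Fintype V₂]
    [DecidableEq V₂] {G₁ : SimpleGraph V₁} {G₂ : SimpleGraph V₂} (h₁ : G₁.IsTree)
    (h₂ : G₂.IsTree) (hn₁ : Nontrivial V₁) (hd : ∀ w, deg G₁ w ≠ 2) (f : real G₂ → real G₁)
    (hf : Continuous f) (hs : Function.Surjective f) (hc : ∀ y, IsConnected (f ⁻¹' {y}))
    (w : V₁) : ∃ u : V₂, (f ⟨ev u, ev_mem u⟩).1 = ev w := by
  by_contra hno
  push Not at hno
  have : CompactSpace (real G₂) := isCompact_iff_compactSpace.1 (real_isCompact G₂)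
  have hcl : IsClosed (f ⁻¹' {(⟨ev w, ev_mem w⟩ : real G₁)}) := isClosed_singleton.preimage hf
  have hFc : IsConnected (Subtype.val '' (f ⁻¹' {(⟨ev w, ev_mem w⟩ : real G₁)})) :=
    (hc _).image _ continuous_subtype_val.continuousOn
  have hFk : IsCompact (Subtype.val '' (f ⁻¹' {(⟨ev w, ev_mem w⟩ : real G₁)})) :=
    hcl.isCompact.image continuous_subtype_val
  obtain ⟨a, b, hab, s, t, h0, hst, h1, hF⟩ := interval_fibre h₂ (by
    rintro p ⟨q, _, rfl⟩
    exact q.2) hFc hFk (by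
    rintro v ⟨q, hq, hqv⟩
    apply hno v
    have h3 : q = ⟨ev v, ev_mem v⟩ := Subtype.ext hqv
    rw [← h3]
    exact congrArg Subtype.val hq)
  have hF' : ∀ p : real G₂, (f p).1 = ev w ↔ s ≤ sg G₂ a b p.1 ∧ sg G₂ a b p.1 ≤ t := by
    intro p
    have h3 := hF p.1
    constructor
    · intro h4
      exact (h3.1 ⟨p, Subtype.ext h4, rfl⟩).2
    · intro h4
      obtain ⟨q, hq, hqp⟩ := h3.2 ⟨p.2, h4⟩
      have h5 : q = p := Subtype.ext hqp
      rw [← h5]
      exact congrArg Subtype.val hq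
  have e1 := fibre_branch h₁ h₂ f hf hs w hab h0 hst h1 hF'
  have e2 := fibre_leaf h₁ h₂ f hf hc w hab h0 hst h1 hF'
  have e3 := hd w
  have e4 := deg_pos h₁ hn₁ w
  omega

/-- the order of trees: a strictly smaller tree has fewer branch vertices or less excess -/
theorem order_main {V₁ V₂ : Type} [Fintype V₁] [DecidableEq V₁] [Fintype V₂] [DecidableEq V₂]
    (G₁ : SimpleGraph V₁) (G₂ : SimpleGraph V₂) (h₁ : G₁.IsTree) (h₂ : G₂.IsTree)
    (hn₁ : Nontrivial V₁) (hn₂ : Nontrivial V₂)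
    (h : MonotoneImage (real G₂) (real G₁)) (h' : ¬ MonotoneImage (real G₁) (real G₂)) :
    bnum G₁ < bnum G₂ ∨ beta G₁ < beta G₂ := by
  by_contra hcon
  push Not at hcon
  obtain ⟨hb, hbe⟩ := hcon
  apply h'
  obtain ⟨W₁, i1, i2, A₁, t₁, n₁, d₁, b₁, be₁, ⟨Φ₁⟩⟩ := reduce _ G₁ le_rfl h₁ hn₁
  obtain ⟨W₂, j1, j2, A₂, t₂, n₂, d₂, b₂, be₂, ⟨Φ₂⟩⟩ := reduce _ G₂ le_rfl h₂ hn₂
  obtain ⟨f, hf, hs, hc⟩ := h
  set f' : real A₂ → real A₁ := fun p => Φ₁ (f (Φ₂.symm p)) with hf'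
  have hf'c : Continuous f' := Φ₁.continuous.comp (hf.comp Φ₂.symm.continuous)
  have hf's : Function.Surjective f' := Φ₁.surjective.comp (hs.comp Φ₂.symm.surjective)
  have hf'f : ∀ y, IsConnected (f' ⁻¹' {y}) := by
    intro y
    have h3 : f' ⁻¹' {y} = Φ₂ '' (f ⁻¹' {Φ₁.symm y}) := by
      ext p
      constructor
      · intro hp
        refine ⟨Φ₂.symm p, ?_, Φ₂.apply_symm_apply p⟩
        have h4 : Φ₁ (f (Φ₂.symm p)) = y := hp
        change f (Φ₂.symm p) = Φ₁.symm y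
        rw [← h4, Φ₁.symm_apply_apply]
      · rintro ⟨q, hq, rfl⟩
        change Φ₁ (f (Φ₂.symm (Φ₂ q))) = y
        have h4 : f q = Φ₁.symm y := hq
        rw [Φ₂.symm_apply_apply, h4, Φ₁.apply_symm_apply]
    rw [h3]
    exact (hc _).image _ Φ₂.continuous.continuousOn
  have hcard : Fintype.card W₂ ≤ Fintype.card W₁ := by
    rw [card_reduced t₁ n₁ d₁, card_reduced t₂ n₂ d₂, b₁, b₂, be₁, be₂]
    omega
  obtain ⟨π, hπ⟩ := vertex_bij f'
    (fun w => exists_vertex_fibre t₁ t₂ n₁ d₁ f' hf'c hf's hf'f w) hcard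
  obtain ⟨Ψ⟩ := real_iso π (fun v v' => iso_of t₁ t₂ π
    (fun v v' h => adj_pres t₁ t₂ f' hf'c hf'f π hπ h) v v')
  set Θ : real G₁ ≃ₜ real G₂ := (Φ₁.trans Ψ).trans Φ₂.symm with hΘ
  refine ⟨Θ, Θ.continuous, Θ.surjective, fun y => ?_⟩
  have h3 : Θ ⁻¹' {y} = {Θ.symm y} := by
    ext x
    simp only [mem_preimage, mem_singleton_iff]
    constructor
    · intro hx
      rw [← hx, Θ.symm_apply_apply]
    · intro hx
      rw [hx, Θ.apply_symm_apply]
  rw [h3]
  exact isConnected_singleton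

end Pool.Agent.DB
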