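import Pool.Agent.DB.I.RedDef
import Pool.Agent.DB.I.Cnt

/-!
# DB-I-RedA: deleting a vertex of degree two: degrees, tree

PLAN.  `deg G v = 2`: the neighbours are `a ≠ b` (`Set.ncard_eq_two`), not adjacent to each other (a
tree has no triangle: e.g. `IsAcyclic` and the cycle `a v b a`, or uniqueness of paths).
`red_deg`: for `u` not adjacent to `v` the neighbour sets correspond under `Subtype.val`; for `u = a`: the
neighbours in `G` are `v` and a set `N` (`b ∉ N`), in `redG` they are `b` and `N`.
Connected: a walk of `G` between two vertices different from `v`: replace `a v b` by `a b`.  Cleaner: the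
map `φ : V → {u // u ≠ v}`, `φ v = a`, `φ u = u` sends adjacent vertices to equal or adjacent ones, so it
sends reachable to reachable.
Tree: connected and the number of edges (`SimpleGraph.isTree_iff_connected_and_card`,
`sum_degrees_eq_twice_card_edges`): the sum of the degrees drops by `2` (`red_deg`), so does twice the
number of vertices.
`red_bnum`, `red_beta`: `deg v = 2` contributes nothing.
-/

namespace Pool.Agent.DB

open Set

variable {V : Type} [Fintype V] [DecidableEq V] {G : SimpleGraph V} {v : V}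

omit [Fintype V] [DecidableEq V] in
private theorem nb (hv : deg G v = 2) :
    ∃ a b, a ≠ b ∧ G.Adj v a ∧ G.Adj v b ∧ ∀ w, G.Adj v w → w = a ∨ w = b := by
  obtain ⟨a, b, hab, h⟩ := Set.ncard_eq_two.1 hv
  have h1 : ∀ w, G.Adj v w ↔ w = a ∨ w = b := fun w => by
    have h2 : w ∈ G.neighborSet v ↔ w ∈ ({a, b} : Set V) := by rw [h]
    simpa using h2
  exact ⟨a, b, hab, (h1 a).2 (Or.inl rfl), (h1 b).2 (Or.inr rfl), fun w hw => (h1 w).1 hw⟩

omit [Fintype V] [DecidableEq V] in
private theorem no_tri (hG : G.IsTree) {a b c : V} (h1 : G.Adj a b) (h2 : G.Adj b c)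
    (h3 : G.Adj a c) : False := by
  refine hG.dist_ne_of_adj a h2 ?_
  rw [SimpleGraph.dist_eq_one_iff_adj.2 h1, SimpleGraph.dist_eq_one_iff_adj.2 h3]

omit [Fintype V] [DecidableEq V] in
private theorem nb' (hv : deg G v = 2) {u : V} (hu : G.Adj u v) :
    ∃ c, c ≠ u ∧ G.Adj v c ∧ ∀ w, G.Adj v w → w = u ∨ w = c := by
  obtain ⟨a, b, hab, ha, hb, h⟩ := nb hv
  rcases h u hu.symm with h1 | h1
  · subst h1
    exact ⟨b, hab.symm, hb, h⟩
  · subst h1
    exact ⟨a, hab, ha, fun w hw => (h w hw).symm⟩

theorem red_deg (hG : G.IsTree) (hv : deg G v = 2) (u : {u : V // u ≠ v}) :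
    deg (redG G v) u = deg G u.1 := by
  unfold deg
  rw [← Set.ncard_image_of_injective _ (Subtype.val_injective (p := fun u : V => u ≠ v))]
  by_cases hu : G.Adj u.1 v
  · obtain ⟨c, hcu, hvc, hc⟩ := nb' hv hu
    have hcn : c ∉ G.neighborSet u.1 \ {v} := fun h => no_tri hG hu hvc h.1
    have h1 : Subtype.val '' (redG G v).neighborSet u = insert c (G.neighborSet u.1 \ {v}) := by
      ext w
      constructor
      · rintro ⟨x, hx, rfl⟩
        rcases hx with hx | ⟨hne, _, hx⟩
        · exact Or.inr ⟨hx, x.2⟩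
        · rcases hc x.1 hx with h | h
          · exact absurd (Subtype.ext h.symm) hne
          · exact Or.inl h
      · rintro (rfl | ⟨h, h'⟩)
        · exact ⟨⟨w, hvc.ne'⟩, Or.inr ⟨fun h => hcu (congrArg Subtype.val h).symm, hu, hvc⟩, rfl⟩
        · exact ⟨⟨w, h'⟩, Or.inl h, rfl⟩
    rw [h1, Set.ncard_insert_of_notMem hcn (Set.toFinite _)]
    exact Set.ncard_diff_singleton_add_one (show v ∈ G.neighborSet u.1 from hu) (Set.toFinite _)
  · congr 1
    ext w
    constructor
    · rintro ⟨x, hx, rfl⟩
      rcases hx with hx | ⟨_, h, _⟩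
      · exact hx
      · exact absurd h hu
    · intro h
      have hw : w ≠ v := by
        rintro rfl
        exact hu h
      exact ⟨⟨w, hw⟩, Or.inl h, rfl⟩

private theorem red_conn (hG : G.IsTree) (hv : deg G v = 2) : (redG G v).Connected := by
  obtain ⟨a, b, hab, ha, hb, h⟩ := nb hv
  let φ : V → {u : V // u ≠ v} := fun u => if hu : u = v then ⟨a, ha.ne'⟩ else ⟨u, hu⟩
  have hφv : φ v = ⟨a, ha.ne'⟩ := dif_pos rfl
  have hφ : ∀ u (hu : u ≠ v), φ u = ⟨u, hu⟩ := fun u hu => dif_neg hu
  have hstep : ∀ x y, G.Adj x y → (redG G v).Reachable (φ x) (φ y) := by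
    have hvy : ∀ y, G.Adj v y → (redG G v).Reachable (φ v) (φ y) := by
      intro y hy
      rw [hφv, hφ y hy.ne']
      rcases h y hy with h1 | h1
      · subst h1
        exact SimpleGraph.Reachable.refl _
      · subst h1
        refine SimpleGraph.Adj.reachable ?_
        exact Or.inr ⟨fun h2 => hab (congrArg Subtype.val h2), ha.symm, hy⟩
    intro x y hxy
    by_cases hx : x = v
    · subst hx
      exact hvy y hxy
    · by_cases hy : y = v
      · subst hy
        exact (hvy x hxy.symm).symm
      · rw [hφ x hx, hφ y hy]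
        exact SimpleGraph.Adj.reachable (Or.inl hxy)
  have hreach : ∀ x y, (redG G v).Reachable (φ x) (φ y) := by
    intro x y
    obtain ⟨w⟩ := hG.connected.preconnected x y
    induction w with
    | nil => exact SimpleGraph.Reachable.refl _
    | cons h _ ih => exact (hstep _ _ h).trans ih
  have : Nonempty {u : V // u ≠ v} := ⟨⟨a, ha.ne'⟩⟩
  refine ⟨fun x y => ?_⟩
  have h1 := hreach x.1 y.1
  rwa [hφ x.1 x.2, hφ y.1 y.2] at h1

private theorem deg_eq' {W : Type} [Fintype W] (H : SimpleGraph W) [DecidableRel H.Adj] (v : W) :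
    deg H v = H.degree v := by
  classical
  unfold deg
  rw [Set.ncard_eq_toFinset_card', Set.toFinset_card, SimpleGraph.card_neighborSet_eq_degree]

theorem red_tree (hG : G.IsTree) (hv : deg G v = 2) : (redG G v).IsTree := by
  classical
  rw [SimpleGraph.isTree_iff_connected_and_card]
  refine ⟨red_conn hG hv, ?_⟩
  have h1 := (redG G v).sum_degrees_eq_twice_card_edges
  have h2 : ∑ u, (redG G v).degree u = ∑ u : {u : V // u ≠ v}, deg G u.1 :=
    Finset.sum_congr rfl fun u _ => by rw [← deg_eq', red_deg hG hv]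
  have h3 := sum_deg hG
  rw [Fintype.sum_eq_add_sum_subtype_ne (fun u => deg G u) v, hv] at h3
  have h4 : Fintype.card V = 1 + Fintype.card {u : V // u ≠ v} := by
    have h5 := Fintype.sum_eq_add_sum_subtype_ne (fun _ : V => 1) v
    simpa using h5
  have h5 : Nat.card (redG G v).edgeSet = (redG G v).edgeFinset.card := by
    rw [Nat.card_eq_fintype_card, ← SimpleGraph.edgeFinset_card]
  rw [h5, Nat.card_eq_fintype_card]
  omega

theorem red_bnum (hG : G.IsTree) (hv : deg G v = 2) : bnum (redG G v) = bnum G := by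
  unfold bnum
  rw [← Set.ncard_image_of_injective _ (Subtype.val_injective (p := fun u : V => u ≠ v))]
  congr 1
  ext w
  constructor
  · rintro ⟨x, hx, rfl⟩
    have hx' : 3 ≤ deg (redG G v) x := hx
    rw [red_deg hG hv] at hx'
    exact hx'
  · intro h
    have h' : 3 ≤ deg G w := h
    have hw : w ≠ v := by
      rintro rfl
      omega
    refine ⟨⟨w, hw⟩, ?_, rfl⟩
    show 3 ≤ deg (redG G v) ⟨w, hw⟩
    rw [red_deg hG hv]
    exact h'

theorem red_beta (hG : G.IsTree) (hv : deg G v = 2) : beta (redG G v) = beta G := by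
  unfold beta
  rw [Fintype.sum_eq_add_sum_subtype_ne (fun u => deg G u - 2) v, hv]
  rw [Nat.sub_self, zero_add]
  refine Finset.sum_congr rfl fun u _ => ?_
  rw [red_deg hG hv]

end Pool.Agent.DB
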