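import Pool.Agent.DB.Defs

/-!
# DB-I-RedDef: deleting a vertex `v` of degree two (definition)
-/

namespace Pool.Agent.DB

/-- delete the vertex `v` and join its neighbours -/
def redG {V : Type} (G : SimpleGraph V) (v : V) : SimpleGraph {u : V // u ≠ v} where
  Adj x y := G.Adj x.1 y.1 ∨ (x ≠ y ∧ G.Adj x.1 v ∧ G.Adj v y.1)
  symm := ⟨by
    rintro x y (h | ⟨h, h1, h2⟩)
    · exact Or.inl h.symm
    · exact Or.inr ⟨h.symm, h2.symm, h1.symm⟩⟩
  loopless := ⟨by
    rintro x (h | ⟨h, _⟩)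
    · exact h.ne rfl
    · exact h rfl⟩

end Pool.Agent.DB
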