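import Pool.Agent.DB.I.StarG
import Pool.Agent.DB.I.Cnt
import Pool.Agent.DB.Top.Cpt

/-!
# DB-I-StarO: the star maps onto a tree with small fibres

PLAN.  Leaves: `{l | deg G l = 1}` has `beta G + 2` elements (`leaf_count`): a bijection
`l : {j : Fin (beta G + 3) // j ≠ 0}`-style enumeration `l : Fin (beta G + 2) → V`; arm `j = i + 1` of the
star ends at the leaf `l i`.  The neighbour of `l i` is `u i`, `m i = (ev (u i) + ev (l i)) / 2`.
Private parts `Pr i = {p ∈ real G | 1/2 < p (l i)}` = `{(1 - s) m i + s ev (l i) | 0 < s ≤ 1}` (`real_supp`,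
`real_eq_edge`: `p` is on the edge `u i, l i`), pairwise disjoint (sum of coordinates is one).
Clamp `ρ : real G → real G`: `ρ p = p` off the private parts, `ρ p = m i` on `Pr i`; formula:
`ρ p = p + ∑ i, max 0 (p (l i) - 1/2) • (ev (u i) - ev (l i))`: continuous, image in `{p | ∀ i, p (l i) ≤ 1/2}`,
identity there.
`γ i = ρ ∘ (path from `ev a₀` to `ev (l i)` with image `real G`)` (`real_path_surj`, `a₀` a fixed vertex): from
`ρ (ev a₀)` to `m i`, with image `{p ∈ real G | ∀ i, p (l i) ≤ 1/2}`.
`η = min (δ/2) (1/2)`; `c i t = γ i (t/η)` for `t ≤ η`, `(1 - s) m i + s ev (l i)`, `s = (t - η)/(1 - η)` for `t ≥ η`: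
continuous on `[0, 1]` (`Continuous.if_le`); `c i 0 = ρ (ev a₀)` =: `o`.
`g p = o + ∑ i, (c i (p (i+1)) - o)`: continuous; on the arm `j = i+1` (`starG_cases`) `g p = c i (p j)`.
Onto: `p` with all `p (l i) ≤ 1/2` is on the first part of arm `1`; private points are on the last parts.
Fibres: if `g p = g q` is in `Pr i` then `p`, `q` are both on the arm `i+1` with parameter `> η`, given by
the value; so `p = q`.  Otherwise all coordinates `p j, q j ≤ η` (`j ≠ 0`), and `|p 0 - q 0| ≤ η`
(sum one): `dist p q ≤ η < δ` (`dist_pi_le_iff`).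
-/

namespace Pool.Agent.DB

open Set

section aux

variable {V : Type} [Fintype V] [DecidableEq V] {G : SimpleGraph V} {n : ℕ}

private theorem so_edge {l u : V} (hu : u ≠ l) (huq : ∀ w, G.Adj l w → w = u) {p : V → ℝ}
    (hp : p ∈ real G) (h : p l ≠ 0) : p = (1 - p l) • ev u + p l • ev l := by
  refine real_eq_edge hp hu (fun v hv1 hv2 => ?_)
  by_contra hne
  rcases real_supp hp h hne with h1 | h1
  · exact hv2 h1.symm
  · exact hv1 (huq v h1)

private theorem so_two {p : V → ℝ} (hp : p ∈ real G) {a b : V} (hab : a ≠ b) : p a + p b ≤ 1 := by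
  rw [← real_sum hp, ← Finset.sum_pair hab]
  exact Finset.sum_le_sum_of_subset_of_nonneg (Finset.subset_univ _)
    (fun i _ _ => real_nonneg hp i)

private noncomputable def so_rho (l u : Fin n → V) (p : V → ℝ) : V → ℝ :=
  p + ∑ i, max 0 (p (l i) - 1 / 2) • (ev (u i) - ev (l i))

private theorem so_rho_cont (l u : Fin n → V) : Continuous (so_rho l u) := by
  unfold so_rho
  refine continuous_id.add (continuous_finsetSum _ fun i _ => ?_)
  exact (continuous_const.max ((continuous_apply (l i)).sub continuous_const)).smul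
    continuous_const

private theorem so_rho_id (l u : Fin n → V) {p : V → ℝ} (h : ∀ i, p (l i) ≤ 1 / 2) :
    so_rho l u p = p := by
  unfold so_rho
  rw [Finset.sum_eq_zero, add_zero]
  intro i _
  rw [max_eq_left (by linarith [h i]), zero_smul]

private theorem so_rho_priv (l u : Fin n → V) (hl : Function.Injective l)
    (hu : ∀ i, u i ≠ l i) (huq : ∀ i w, G.Adj (l i) w → w = u i) {p : V → ℝ}
    (hp : p ∈ real G) (i : Fin n) (h : 1 / 2 < p (l i)) :
    so_rho l u p = (1 / 2 : ℝ) • ev (u i) + (1 / 2 : ℝ) • ev (l i) := by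
  unfold so_rho
  rw [Finset.sum_eq_single i]
  · have h1 := so_edge (hu i) (huq i) hp (by linarith)
    rw [max_eq_right (by linarith)]
    funext v
    have h2 := congrFun h1 v
    simp only [Pi.add_apply, Pi.smul_apply, Pi.sub_apply, smul_eq_mul] at h2 ⊢
    rw [h2]
    ring
  · intro k _ hk
    have h1 : l i ≠ l k := fun h2 => hk (hl h2).symm
    have h2 := so_two hp h1
    rw [max_eq_left (by linarith), zero_smul]
  · intro h1
    exact absurd (Finset.mem_univ i) h1

private theorem so_half (l u : Fin n → V) (hl : Function.Injective l)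
    (hu : ∀ i, u i ≠ l i) (huq : ∀ i w, G.Adj (l i) w → w = u i)
    (hadj : ∀ i, G.Adj (u i) (l i)) {p : V → ℝ} (hp : p ∈ real G) :
    so_rho l u p ∈ real G ∧ ∀ k, so_rho l u p (l k) ≤ 1 / 2 := by
  by_cases h : ∀ i, p (l i) ≤ 1 / 2
  · rw [so_rho_id l u h]
    exact ⟨hp, h⟩
  · push Not at h
    obtain ⟨i, hi⟩ := h
    rw [so_rho_priv l u hl hu huq hp i hi]
    constructor
    · have h1 := edge_mem (hadj i) (t := 1 / 2) (by norm_num) (by norm_num)
      norm_num at h1 ⊢
      exact h1
    · intro k
      simp only [Pi.add_apply, Pi.smul_apply, smul_eq_mul, ev_apply]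
      by_cases h1 : l k = u i
      · have h2 : l k ≠ l i := fun h3 => hu i (by rw [← h1, h3])
        rw [if_pos h1, if_neg h2]
        norm_num
      · rw [if_neg h1]
        split_ifs <;> norm_num

private noncomputable def so_c (l u : Fin n → V) (γ : Fin n → ℝ → V → ℝ) (η : ℝ) (i : Fin n)
    (t : ℝ) : V → ℝ :=
  if t ≤ η then so_rho l u (γ i (t / η)) else
    ((1 - (t - η) / (1 - η)) / 2) • ev (u i) + ((1 + (t - η) / (1 - η)) / 2) • ev (l i)

private theorem so_c_cont (l u : Fin n → V) (γ : Fin n → ℝ → V → ℝ) {η : ℝ} (hη : 0 < η)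
    (hγ : ∀ i, Continuous (γ i))
    (h1 : ∀ i, so_rho l u (γ i 1) = (1 / 2 : ℝ) • ev (u i) + (1 / 2 : ℝ) • ev (l i))
    (i : Fin n) : Continuous (so_c l u γ η i) := by
  unfold so_c
  refine Continuous.if_le ?_ ?_ continuous_id continuous_const ?_
  · exact (so_rho_cont l u).comp ((hγ i).comp (continuous_id.div_const η))
  · have h2 : Continuous fun t : ℝ => (t - η) / (1 - η) :=
      (continuous_id.sub continuous_const).div_const _
    exact (((continuous_const.sub h2).div_const 2).smul continuous_const).add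
      (((continuous_const.add h2).div_const 2).smul continuous_const)
  · intro t ht
    rw [ht, div_self hη.ne', h1 i]
    simp

end aux

theorem star_onto {V : Type} [Fintype V] [DecidableEq V] (G : SimpleGraph V) (hG : G.IsTree)
    (hn : Nontrivial V) (δ : ℝ) (hδ : 0 < δ) :
    ∃ g : real (starG (beta G + 2)) → real G, Continuous g ∧ Function.Surjective g ∧
      ∀ p q, g p = g q → dist p q < δ := by
  have hnn : ∃ n, n = beta G + 2 := ⟨_, rfl⟩
  obtain ⟨n, hn2⟩ := hnn
  have hlc := leaf_count hG hn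
  rw [← hn2] at hlc ⊢
  have hnpos : 0 < n := by omega
  -- the enumeration of the leaves
  have hex : ∃ l : Fin n → V, Function.Injective l ∧ ∀ i, deg G (l i) = 1 := by
    have hfin := Set.toFinite {v : V | deg G v = 1}
    have hcard : hfin.toFinset.card = n := by
      rw [← hlc, Set.ncard_eq_toFinset_card _ hfin]
    let e := (hfin.toFinset).equivFinOfCardEq hcard
    refine ⟨fun i => (e.symm i).1, ?_, ?_⟩
    · intro i j hij
      exact e.symm.injective (Subtype.ext hij)
    · intro i
      have h1 := (e.symm i).2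
      rw [Set.Finite.mem_toFinset] at h1
      exact h1
  obtain ⟨l, hl, hdeg⟩ := hex
  have hnb : ∀ i, ∃ u, G.neighborSet (l i) = {u} := fun i => Set.ncard_eq_one.1 (hdeg i)
  choose u hus using hnb
  have hadj : ∀ i, G.Adj (u i) (l i) := by
    intro i
    have h1 : u i ∈ G.neighborSet (l i) := by rw [hus i]; exact rfl
    have h2 : G.Adj (l i) (u i) := h1
    exact h2.symm
  have huq : ∀ i w, G.Adj (l i) w → w = u i := by
    intro i w hw
    have h1 : w ∈ G.neighborSet (l i) := hw
    rw [hus i] at h1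
    exact h1
  have hu : ∀ i, u i ≠ l i := fun i => (hadj i).ne
  obtain ⟨a₀⟩ : Nonempty V := inferInstance
  have hpath := fun i => real_path_surj hG.1 a₀ (l i)
  choose γ hγc hγm hγ0 hγ1 hγs using hpath
  set η : ℝ := min (δ / 2) (1 / 2) with hηdef
  have hη0 : 0 < η := lt_min (by linarith) (by norm_num)
  have hη1 : η ≤ 1 / 2 := min_le_right _ _
  have hηδ : η < δ := lt_of_le_of_lt (min_le_left _ _) (by linarith)
  have hρ1 : ∀ i, so_rho l u (γ i 1) = (1 / 2 : ℝ) • ev (u i) + (1 / 2 : ℝ) • ev (l i) := by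
    intro i
    refine so_rho_priv l u hl hu huq (hγm i 1) i ?_
    rw [hγ1 i, ev_apply, if_pos rfl]
    norm_num
  set o : V → ℝ := so_rho l u (ev a₀) with ho
  have hc0 : ∀ i, so_c l u γ η i 0 = o := by
    intro i
    unfold so_c
    rw [if_pos hη0.le, zero_div, hγ0 i]
  have hcc : ∀ i, Continuous (so_c l u γ η i) := so_c_cont l u γ hη0 hγc hρ1
  have hs0 : ∀ t : ℝ, η < t → 0 < (t - η) / (1 - η) := fun t ht =>
    div_pos (by linarith) (by linarith)
  have hs1 : ∀ t : ℝ, t ≤ 1 → (t - η) / (1 - η) ≤ 1 := fun t ht => by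
    rw [div_le_one (by linarith)]
    linarith
  have hcm : ∀ i t, 0 ≤ t → t ≤ 1 → so_c l u γ η i t ∈ real G := by
    intro i t ht0 ht1
    unfold so_c
    split_ifs with h
    · exact (so_half l u hl hu huq hadj (hγm i _)).1
    · push Not at h
      have h1 := hs0 t h
      have h2 := hs1 t ht1
      have h3 := edge_mem (hadj i) (t := (1 + (t - η) / (1 - η)) / 2) (by linarith) (by linarith)
      have h4 : (1 - (t - η) / (1 - η)) / 2 = 1 - (1 + (t - η) / (1 - η)) / 2 := by ring
      rw [h4]
      exact h3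
  -- coordinates of the star
  have hstar : ∀ (j : Fin n) (t : ℝ), 0 ≤ t → t ≤ 1 →
      ((1 - t) • ev 0 + t • ev j.succ : Fin (n + 1) → ℝ) ∈ real (starG n) := by
    intro j t h0 h1
    exact edge_mem (G := starG n) ⟨(Fin.succ_ne_zero j).symm, Or.inl rfl⟩ h0 h1
  have harm : ∀ p ∈ real (starG n), ∃ j : Fin n, ∃ t : ℝ, 0 ≤ t ∧ t ≤ 1 ∧
      p = (1 - t) • ev 0 + t • ev j.succ := by
    intro p hp
    obtain ⟨j, hj, t, h0, h1, h2⟩ := starG_cases hnpos hp
    obtain ⟨i, rfl⟩ := Fin.exists_succ_eq.2 hj
    exact ⟨i, t, h0, h1, h2⟩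
  let g0 : (Fin (n + 1) → ℝ) → V → ℝ := fun p => o + ∑ i : Fin n, (so_c l u γ η i (p i.succ) - o)
  have hg0c : Continuous g0 := by
    refine continuous_const.add (continuous_finsetSum _ fun i _ => ?_)
    exact ((hcc i).comp (continuous_apply i.succ)).sub continuous_const
  have hg0 : ∀ (j : Fin n) (t : ℝ),
      g0 ((1 - t) • ev 0 + t • ev j.succ) = so_c l u γ η j t := by
    intro j t
    change o + ∑ i : Fin n, (so_c l u γ η i
      (((1 - t) • ev 0 + t • ev j.succ : Fin (n + 1) → ℝ) i.succ) - o) = _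
    have hco : ∀ i : Fin n, ((1 - t) • ev 0 + t • ev j.succ : Fin (n + 1) → ℝ) i.succ =
        if i = j then t else 0 := by
      intro i
      simp only [Pi.add_apply, Pi.smul_apply, smul_eq_mul, ev_apply]
      rw [if_neg (Fin.succ_ne_zero i)]
      by_cases hij : i = j
      · rw [if_pos (by rw [hij]), if_pos hij]
        ring
      · rw [if_neg (fun h => hij (Fin.succ_injective n h)), if_neg hij]
        ring
    rw [Finset.sum_eq_single j]
    · rw [hco j, if_pos rfl]
      abel
    · intro i _ hij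
      rw [hco i, if_neg hij, hc0 i, sub_self]
    · intro h
      exact absurd (Finset.mem_univ j) h
  have hg0m : ∀ p ∈ real (starG n), g0 p ∈ real G := by
    intro p hp
    obtain ⟨j, t, h0, h1, rfl⟩ := harm p hp
    rw [hg0 j t]
    exact hcm j t h0 h1
  refine ⟨fun p => ⟨g0 p.1, hg0m p.1 p.2⟩,
    (hg0c.comp continuous_subtype_val).subtype_mk _, ?_, ?_⟩
  · -- surjective
    rintro ⟨p, hp⟩
    by_cases h : ∀ i, p (l i) ≤ 1 / 2
    · obtain ⟨t, ht, htp⟩ := hγs ⟨0, hnpos⟩ p hp
      have h1 : 0 ≤ η * t := mul_nonneg hη0.le ht.1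
      have h2 : η * t ≤ η := by nlinarith [ht.2]
      refine ⟨⟨_, hstar ⟨0, hnpos⟩ (η * t) h1 (by linarith)⟩, ?_⟩
      apply Subtype.ext
      change g0 _ = p
      rw [hg0]
      unfold so_c
      rw [if_pos h2, mul_div_cancel_left₀ _ hη0.ne', htp, so_rho_id l u h]
    · push Not at h
      obtain ⟨i, hi⟩ := h
      have h1 := so_edge (hu i) (huq i) hp (by linarith)
      have hle := real_le_one hp (l i)
      have h3 : 0 < 1 - η := by linarith
      have h4 : η < η + (1 - η) * (2 * p (l i) - 1) := by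
        have : 0 < (1 - η) * (2 * p (l i) - 1) := mul_pos h3 (by linarith)
        linarith
      have h5 : η + (1 - η) * (2 * p (l i) - 1) ≤ 1 := by
        have : (1 - η) * (2 * p (l i) - 1) ≤ (1 - η) * 1 :=
          mul_le_mul_of_nonneg_left (by linarith) h3.le
        linarith
      refine ⟨⟨_, hstar i (η + (1 - η) * (2 * p (l i) - 1)) (by linarith) h5⟩, ?_⟩
      apply Subtype.ext
      change g0 _ = p
      rw [hg0]
      unfold so_c
      rw [if_neg (not_le.2 h4)]
      have h6 : (η + (1 - η) * (2 * p (l i) - 1) - η) / (1 - η) = 2 * p (l i) - 1 := by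
        field_simp
        ring
      rw [h6]
      conv_rhs => rw [h1]
      have h7 : (1 - (2 * p (l i) - 1)) / 2 = 1 - p (l i) := by ring
      have h8 : (1 + (2 * p (l i) - 1)) / 2 = p (l i) := by ring
      rw [h7, h8]
  · -- fibres
    have key : ∀ (i k : Fin n) (t t' : ℝ), 0 ≤ t → t ≤ 1 → 0 ≤ t' → t' ≤ 1 →
        so_c l u γ η i t = so_c l u γ η k t' → η < t → i = k ∧ t = t' := by
      intro i k t t' ht0 ht1 ht0' ht1' he hlt
      have hv : so_c l u γ η i t (l i) = (1 + (t - η) / (1 - η)) / 2 := by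
        unfold so_c
        rw [if_neg (not_le.2 hlt)]
        simp only [Pi.add_apply, Pi.smul_apply, smul_eq_mul, ev_apply]
        rw [if_neg (hu i).symm, if_pos trivial]
        ring
      have h1 := hs0 t hlt
      by_cases h2 : t' ≤ η
      · exfalso
        have h3 : so_c l u γ η k t' (l i) ≤ 1 / 2 := by
          unfold so_c
          rw [if_pos h2]
          exact (so_half l u hl hu huq hadj (hγm k _)).2 i
        rw [← he, hv] at h3
        linarith
      · push Not at h2
        have hv' : so_c l u γ η k t' (l k) = (1 + (t' - η) / (1 - η)) / 2 := by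
          unfold so_c
          rw [if_neg (not_le.2 h2)]
          simp only [Pi.add_apply, Pi.smul_apply, smul_eq_mul, ev_apply]
          rw [if_neg (hu k).symm, if_pos trivial]
          ring
        have h4 := hs0 t' h2
        have hik : i = k := by
          by_contra hne
          have h5 := so_two (hcm i t ht0 ht1) (fun h => hne (hl h))
          rw [hv, he, hv'] at h5
          linarith
        subst hik
        refine ⟨rfl, ?_⟩
        rw [← he, hv] at hv'
        have h6 : (t - η) / (1 - η) = (t' - η) / (1 - η) := by linarith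
        rw [div_left_inj' (by linarith)] at h6
        linarith
    rintro ⟨p, hp⟩ ⟨q, hq⟩ hpq
    have hpq' : g0 p = g0 q := congrArg Subtype.val hpq
    obtain ⟨i, t, h0, h1, rfl⟩ := harm p hp
    obtain ⟨k, t', h0', h1', rfl⟩ := harm q hq
    rw [hg0, hg0] at hpq'
    by_cases ht : η < t
    · obtain ⟨h2, h3⟩ := key i k t t' h0 h1 h0' h1' hpq' ht
      subst h2 h3
      rw [dist_self]
      exact hδ
    · by_cases ht' : η < t'
      · obtain ⟨h2, h3⟩ := key k i t' t h0' h1' h0 h1 hpq'.symm ht'
        subst h2 h3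
        rw [dist_self]
        exact hδ
      · push Not at ht ht'
        refine lt_of_le_of_lt ?_ hηδ
        rw [Subtype.dist_eq, dist_pi_le_iff hη0.le]
        intro v
        rw [Real.dist_eq]
        simp only [Pi.add_apply, Pi.smul_apply, smul_eq_mul, ev_apply]
        rw [abs_le]
        rcases Fin.eq_zero_or_eq_succ v with hv | ⟨w, hv⟩
        · subst hv
          rw [if_pos rfl, if_neg (Fin.succ_ne_zero i).symm, if_neg (Fin.succ_ne_zero k).symm]
          constructor <;> linarith
        · subst hv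
          rw [if_neg (Fin.succ_ne_zero w)]
          split_ifs <;> constructor <;> linarith

end Pool.Agent.DB
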